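import Pool.Agent.D0H67.SUB.Stm
import Pool.Agent.TH192.MT.Ser

/-! # Linear forms and linear subspaces -/

set_option autoImplicit false
set_option linter.unusedSectionVars false
set_option linter.unusedVariables false

namespace Pool.Agent.D0H67.SUB.Base

open MvPolynomial Pool.Agent.W428.MOT Pool.Agent.TH192.MT

variable {K : Type} [Field K] [IsAlgClosed K]

theorem exists_alg (a : AlgebraicClosure K) : ∃ b : K, algebraMap K (AlgebraicClosure K) b = a :=
  (IsAlgClosed.algebraMap_bijective_of_isIntegral (k := K) (K := AlgebraicClosure K)).2 a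

theorem pf_const {ι : Type} (a : AlgebraicClosure K) : IsPF (fun _ : Pt K ι => a) := by
  obtain ⟨b, rfl⟩ := exists_alg a
  exact IsPF.const b

theorem lin : S_LIN := by
  intro K _ _ σ _ φ
  classical
  have h : ∀ z : Pt K σ, φ z = ∑ i, z i * φ (Pi.single i 1) := by
    intro z
    conv_lhs => rw [← Finset.univ_sum_single z]
    rw [map_sum]
    refine Finset.sum_congr rfl fun i _ => ?_
    rw [← smul_eq_mul, ← map_smul]
    congr 1
    rw [← Pi.single_smul, smul_eq_mul, mul_one]
  rw [funext h]
  exact IsPF.sum _ _ fun i _ => (IsPF.coord i).mul (pf_const _)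

theorem pf_map {ι κ : Type} [Fintype ι] (T : Pt K ι →ₗ[AlgebraicClosure K] Pt K κ) (j : κ) :
    IsPF fun z => T z j := lin ((LinearMap.proj j).comp T)

theorem reg_map {ι κ : Type} [Fintype ι] (T : Pt K ι →ₗ[AlgebraicClosure K] Pt K κ)
    (S : Set (Pt K ι)) : RegularOn S T := regularOn_poly (pf_map T) S

theorem constr_sub {σ : Type} [Fintype σ] (W : Submodule (AlgebraicClosure K) (Pt K σ)) :
    Constr (W : Set (Pt K σ)) := by
  obtain ⟨W', hW⟩ := W.exists_isCompl
  set Q := W'.projectionOnto W hW.symm with hQ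
  have h : (W : Set (Pt K σ)) = {z | ∀ i, (W'.subtype.comp Q) z i = 0} := by
    ext z
    simp only [SetLike.mem_coe, Set.mem_ofPred_eq]
    rw [← funext_iff (f := (W'.subtype.comp Q) z) (g := fun _ => 0)]
    change _ ↔ (Q z : Pt K σ) = 0
    rw [Submodule.coe_eq_zero, hQ, Submodule.projectionOnto_apply_eq_zero_iff]
  rw [h]
  exact Constr.all fun i => Constr.eqz (pf_map _ i)

theorem cls : S_CLS := by
  intro K _ _ σ _ W
  refine ⟨constr_sub W, fun {R} _ M => ?_⟩
  classical
  set d := Module.finrank (AlgebraicClosure K) W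
  have b := Module.finBasis (AlgebraicClosure K) W
  let f0 : (Fin d → AlgebraicClosure K) →ₗ[AlgebraicClosure K] Pt K σ :=
    W.subtype.comp b.equivFun.symm.toLinearMap
  have hf0 : Function.Injective f0 := fun x y h =>
    b.equivFun.symm.injective (Subtype.ext h)
  obtain ⟨g0, hg0⟩ := f0.exists_leftInverse_of_injective (LinearMap.ker_eq_bot.2 hf0)
  have hgf : ∀ x, g0 (f0 x) = x := fun x => LinearMap.congr_fun hg0 x
  have hmem : ∀ x, f0 x ∈ W := fun x => (b.equivFun.symm x).2
  rw [M.iso (W : Set (Pt K σ)) (Set.univ : Set (Pt K (Fin d))) (constr_sub W) Constr.univ g0 f0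
    (reg_map g0 _) (reg_map f0 _) (fun _ _ => trivial) (fun x _ => hmem x) ?_
    (fun x _ => hgf x), chi_univ, Fintype.card_fin]
  intro z hz
  have h : z = f0 (b.equivFun ⟨z, hz⟩) := by
    change z = ((b.equivFun.symm (b.equivFun ⟨z, hz⟩) : W) : Pt K σ)
    rw [LinearEquiv.symm_apply_apply]
  rw [h, hgf]

end Pool.Agent.D0H67.SUB.Base
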