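import Pool.Agent.D0H67.SUB.Stm
import Pool.Agent.TH192.MT.Ser

/-! # The sets `JS`: constructibility, levels -/

set_option autoImplicit false
set_option linter.unusedSectionVars false
set_option linter.unusedVariables false

namespace Pool.Agent.D0H67.SUB.Lev

open MvPolynomial Pool.Agent.W428.MOT Pool.Agent.TH192.MT

section jk

variable {F σ : Type} [Zero F] {N : ℕ}

theorem jk_lt (z : σ × Fin (N + 1) → F) {k : ℕ} (h : k < N + 1) (i : σ) :
    jk z k i = z (i, ⟨k, h⟩) := dif_pos h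

theorem jk_ge (z : σ × Fin (N + 1) → F) {k : ℕ} (h : ¬ k < N + 1) : jk z k = 0 :=
  funext fun _ => dif_neg h

theorem jk_zero (z : σ × Fin (N + 1) → F) : jk z 0 = fun i => z (i, 0) :=
  funext fun _ => dif_pos (Nat.succ_pos N)

end jk

variable {K : Type} [Field K] {σ S : Type}

theorem pf_jk {N : ℕ} (k : ℕ) (i : σ) : IsPF fun z : Pt K (σ × Fin (N + 1)) => jk z k i := by
  by_cases h : k < N + 1
  · rw [show (fun z : Pt K (σ × Fin (N + 1)) => jk z k i) = fun z => z (i, ⟨k, h⟩) from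
      funext fun z => jk_lt z h i]
    exact IsPF.coord _
  · rw [show (fun z : Pt K (σ × Fin (N + 1)) => jk z k i) = fun z => 0 from
      funext fun z => by rw [jk_ge z h]; rfl]
    exact IsPF.zero

theorem constr_jk {N : ℕ} (k : ℕ) {V : Set (Pt K σ)} (hV : Constr V) :
    Constr {z : Pt K (σ × Fin (N + 1)) | jk z k ∈ V} :=
  hV.preimage (fun z => jk z k) fun i => pf_jk k i

variable [Fintype σ] [DecidableEq S] (D : Dat K σ S)

theorem le_of_mem {A : Finset S} {m : ℕ} {a : S → ℕ} (h : ∑ s ∈ A, D.e s * a s = m) {s : S}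
    (hs : s ∈ A) : a s ≤ m := by
  have h1 : D.e s * a s ≤ ∑ s ∈ A, D.e s * a s :=
    Finset.single_le_sum (f := fun s => D.e s * a s) (fun _ _ => Nat.zero_le _) hs
  have h2 : a s ≤ D.e s * a s := Nat.le_mul_of_pos_left _ (D.he s)
  omega

theorem mem_JS {A : Finset S} {V : Set (Pt K σ)} {m N : ℕ} {z : Pt K (σ × Fin (N + 1))} :
    z ∈ D.JS A V m N ↔ jk z 0 ∈ V ∧ ∃ a : A → Fin (m + 1),
      (∀ s : A, (∀ k < (a s : ℕ), jk z k ∈ D.L s) ∧ jk z (a s) ∈ D.C s) ∧
        ∑ s : A, D.e s * (a s : ℕ) = m := by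
  refine and_congr_right fun _ => ⟨?_, ?_⟩
  · rintro ⟨a, h1, h2⟩
    refine ⟨fun s => ⟨a s, Nat.lt_succ_of_le (le_of_mem D h2 s.2)⟩, fun s => h1 s s.2, ?_⟩
    exact (Finset.sum_coe_sort A fun s => D.e s * a s).trans h2
  · rintro ⟨a, h1, h2⟩
    refine ⟨fun s => if h : s ∈ A then (a ⟨s, h⟩ : ℕ) else 0, fun s hs => ?_, ?_⟩
    · simp only [dif_pos hs]
      exact h1 ⟨s, hs⟩
    · rw [← Finset.sum_coe_sort A]
      conv_rhs => rw [← h2]
      refine Finset.sum_congr rfl fun s _ => ?_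
      simp only [dif_pos s.2]

theorem constr_JS (hL : ∀ s, Constr (D.L s : Set (Pt K σ))) (A : Finset S) {V : Set (Pt K σ)}
    (hV : Constr V) (m N : ℕ) : Constr (D.JS A V m N) := by
  have h : D.JS A V m N = {z | jk z 0 ∈ V ∧ ∃ a : A → Fin (m + 1),
      (∀ s : A, (∀ k < (a s : ℕ), jk z k ∈ D.L s) ∧ jk z (a s) ∈ D.C s) ∧
        ∑ s : A, D.e s * (a s : ℕ) = m} := Set.ext fun z => mem_JS D
  rw [h]
  refine Constr.and (constr_jk 0 hV) (Constr.ex fun a => Constr.and (Constr.all fun s =>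
    Constr.and (Constr.allLt _ fun k _ => constr_jk k (hL s)) (constr_jk _ (D.cC s)))
    (Constr.const _))

/-- the truncation -/
theorem jk_trunc {N : ℕ} (z : Pt K (σ × Fin (N + 1 + 1))) {k : ℕ} (h : k ≤ N) :
    jk (fun p : σ × Fin (N + 1) => z (p.1, p.2.castSucc)) k = jk z k := by
  funext i
  rw [jk_lt _ (by omega), jk_lt _ (by omega)]
  rfl

theorem mem_trunc {A : Finset S} {V : Set (Pt K σ)} {m N : ℕ} (h : m ≤ N)
    (z : Pt K (σ × Fin (N + 1 + 1))) : z ∈ D.JS A V m (N + 1) ↔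
      (fun p : σ × Fin (N + 1) => z (p.1, p.2.castSucc)) ∈ D.JS A V m N := by
  rw [mem_JS, mem_JS, jk_trunc z (Nat.zero_le N)]
  refine and_congr_right fun _ => exists_congr fun a => and_congr_left fun _ =>
    forall_congr' fun s => ?_
  have h1 : (a s : ℕ) ≤ N := by
    have := (a s).2
    omega
  rw [jk_trunc z h1]
  refine and_congr_left fun _ => forall₂_congr fun k hk => ?_
  rw [jk_trunc z (by omega)]

/-- the coordinates -/
def eqv (σ : Type) (N : ℕ) : (σ × Fin (N + 1)) ⊕ σ ≃ σ × Fin (N + 1 + 1) where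
  toFun := Sum.elim (fun p => (p.1, p.2.castSucc)) fun i => (i, Fin.last _)
  invFun := fun p => if h : (p.2 : ℕ) < N + 1 then Sum.inl (p.1, ⟨p.2, h⟩) else Sum.inr p.1
  left_inv := by
    rintro (⟨i, k⟩ | i)
    · have := k.2
      simp only [Sum.elim_inl, Fin.val_castSucc, dif_pos this]
    · simp
  right_inv := by
    rintro ⟨i, k⟩
    by_cases h : (k : ℕ) < N + 1
    · simp only [dif_pos h, Sum.elim_inl]
      rfl
    · simp only [dif_neg h, Sum.elim_inr]
      refine Prod.ext rfl (Fin.ext ?_)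
      have := k.2
      simp only [Fin.val_last]
      omega

theorem main : S_LEV := by
  intro K _ σ S _ _ D hL A V hV m N
  refine ⟨constr_JS D hL A hV m N, fun h {R} _ M => ?_⟩
  exact chi_split M (eqv σ N) _ _ (constr_JS D hL A hV m N) (mem_trunc D h)

/-- many levels -/
theorem level {R : Type} [CommRing R] (M : Meas K R) (v : R) (hv : M.L * v = 1)
    (hL : ∀ s, Constr (D.L s : Set (Pt K σ))) (A : Finset S) {V : Set (Pt K σ)}
    (hV : Constr V) {m N : ℕ} (h : m ≤ N) :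
    M.χ _ (D.JS A V m N) * v ^ (Fintype.card σ * N) =
      M.χ _ (D.JS A V m m) * v ^ (Fintype.card σ * m) := by
  induction N, h using Nat.le_induction with
  | base => rfl
  | succ N h ih =>
    rw [← ih, (main D hL A V hV m N).2 h M, Nat.mul_add, Nat.mul_one, pow_add]
    have h1 : M.L ^ Fintype.card σ * v ^ Fintype.card σ = 1 := by
      rw [← mul_pow, hv, one_pow]
    linear_combination (M.χ _ (D.JS A V m N) * v ^ (Fintype.card σ * N)) * h1

end Pool.Agent.D0H67.SUB.Lev
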