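import Pool.Agent.D0H67.SUB.Defs
import Pool.Agent.TH192.DT.MotZ

/-! # The modules: statements -/

set_option autoImplicit false
set_option linter.unusedSectionVars false
set_option linter.unusedVariables false

namespace Pool.Agent.D0H67.SUB

open MvPolynomial Pool.Agent.W428.MOT Pool.Agent.TH192.MT Pool.Agent.TH192.DT

/-- `F^* v + L` -/
def conv {F V : Type} [Field F] [AddCommGroup V] [Module F V] (L : Submodule F V) (v : V) :
    Set V := {u | ∃ a : F, a ≠ 0 ∧ u - a • v ∈ L}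

/-- An irreducible closed set of indices. -/
def IrrSet {F V S : Type} [Field F] [AddCommGroup V] [Module F V] [DecidableEq S]
    (L : S → Submodule F V) (A : Finset S) : Prop :=
  A.Nonempty ∧ (∀ s, A.inf L ≤ L s → s ∈ A) ∧
    ∀ A1 A2 : Finset S, A1.Nonempty → A2.Nonempty → Disjoint A1 A2 → A1 ∪ A2 = A →
      A1.inf L ⊔ A2.inf L ≠ ⊤

/-- (LIN) linear forms are polynomial functions -/
def S_LIN : Prop :=
  ∀ {K : Type} [Field K] [IsAlgClosed K] {σ : Type} [Fintype σ]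
    (φ : Pt K σ →ₗ[AlgebraicClosure K] AlgebraicClosure K), IsPF fun z => φ z

/-- (CLS) linear subspaces -/
def S_CLS : Prop :=
  ∀ {K : Type} [Field K] [IsAlgClosed K] {σ : Type} [Fintype σ]
    (W : Submodule (AlgebraicClosure K) (Pt K σ)),
    Constr (W : Set (Pt K σ)) ∧ ∀ {R : Type} [CommRing R] (M : Meas K R),
      M.χ σ (W : Set (Pt K σ)) = M.L ^ Module.finrank (AlgebraicClosure K) W

/-- (LEV) constructibility, and the jets of the next level -/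
def S_LEV : Prop :=
  ∀ {K : Type} [Field K] {σ S : Type} [Fintype σ] [DecidableEq S] (D : Dat K σ S),
    (∀ s, Constr (D.L s : Set (Pt K σ))) → ∀ (A : Finset S) (V : Set (Pt K σ)), Constr V →
    ∀ m N : ℕ, Constr (D.JS A V m N) ∧ (m ≤ N → ∀ {R : Type} [CommRing R] (M : Meas K R),
      M.χ _ (D.JS A V m (N + 1)) = M.χ _ (D.JS A V m N) * M.L ^ Fintype.card σ)

/-- (SHIFT) division by `t` of the jets with `z_0 = 0` -/
def S_SHIFT : Prop :=
  ∀ {K : Type} [Field K] {σ S : Type} [Fintype σ] [DecidableEq S] (D : Dat K σ S),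
    (∀ s, Constr (D.L s : Set (Pt K σ))) → ∀ (A : Finset S) (m N : ℕ)
      {R : Type} [CommRing R] (M : Meas K R),
      M.χ _ (D.JS A {0} m (N + 1)) =
        if D.mul A ≤ m then M.χ _ (D.JS A Set.univ (m - D.mul A) N) else 0

/-- (STRAT) stratification by `z_0` -/
def S_STRAT : Prop :=
  ∀ {K : Type} [Field K] {σ S : Type} [Fintype σ] [DecidableEq S] (D : Dat K σ S),
    (∀ s, Constr (D.L s : Set (Pt K σ))) → ∀ (A : Finset S) (m N : ℕ)
      {R : Type} [CommRing R] (M : Meas K R),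
      M.χ _ (D.JS A Set.univ m N) = ∑ B ∈ A.powerset, M.χ _ (D.JS B (D.VV A B) m N)

/-- (TRN) translation -/
def S_TRN : Prop :=
  ∀ {K : Type} [Field K] {σ S : Type} [Fintype σ] [DecidableEq S] (D : Dat K σ S),
    (∀ s, Constr (D.L s : Set (Pt K σ))) → ∀ (A : Finset S) (V : Set (Pt K σ)), Constr V →
      (∀ x ∈ V, ∀ s ∈ A, x ∈ D.L s) → ∀ (m N : ℕ) {R : Type} [CommRing R] (M : Meas K R),
      M.χ _ (D.JS A V m N) = M.χ σ V * M.χ _ (D.JS A {0} m N)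

/-- (ENG) the recursion -/
def S_ENG : Prop :=
  ∀ {K : Type} [Field K] {σ S : Type} [Fintype σ] [DecidableEq S] (D : Dat K σ S),
    (∀ s, Constr (D.L s : Set (Pt K σ))) → ∀ {R : Type} [CommRing R] (M : Meas K R) (v : R),
      M.L * v = 1 → D.zs M v ∅ = 1 ∧ ∀ A : Finset S,
      D.zs M v A = PowerSeries.C (v ^ Fintype.card σ) * PowerSeries.X ^ D.mul A *
        ∑ B ∈ A.powerset, PowerSeries.C (M.χ σ (D.VV A B)) * D.zs M v B

/-- (PRODV) sets invariant under transversal subspaces -/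
def S_PRODV : Prop :=
  ∀ {K : Type} [Field K] [IsAlgClosed K] {σ : Type} [Fintype σ] {R : Type} [CommRing R]
    (M : Meas K R) (G1 G2 : Submodule (AlgebraicClosure K) (Pt K σ)) (U1 U2 : Set (Pt K σ)),
    Constr U1 → Constr U2 → G1 ⊔ G2 = ⊤ → (∀ x ∈ U1, ∀ y ∈ G1, x + y ∈ U1) →
    (∀ x ∈ U2, ∀ y ∈ G2, x + y ∈ U2) →
    M.χ σ U1 * M.χ σ U2 = M.χ σ (U1 ∩ U2) * M.L ^ Fintype.card σ

/-- (PROD) -/
def S_PROD : Prop :=
  ∀ {K : Type} [Field K] [IsAlgClosed K] {σ S : Type} [Fintype σ] [DecidableEq S]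
    (D : Dat K σ S) {R : Type} [CommRing R] (M : Meas K R) (v : R), M.L * v = 1 →
    ∀ A1 A2 : Finset S, Disjoint A1 A2 → A1.inf D.L ⊔ A2.inf D.L = ⊤ →
      D.zs M v (A1 ∪ A2) = D.zs M v A1 * D.zs M v A2

/-- (RAT) rationality, with the irreducible closed sets only -/
def S_RAT : Prop :=
  ∀ {K : Type} [Field K] [IsAlgClosed K] {σ S : Type} [Fintype σ] [DecidableEq S]
    (D : Dat K σ S), (∀ s, D.L s ≠ ⊤) → (∀ s, D.C s = (D.L s : Set (Pt K σ))ᶜ) →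
    ∀ {R : Type} [CommRing R] (M : Meas K R) (u : Rˣ), M.L = (u : R) →
    ∀ A : Finset S, (∀ s, A.inf D.L ≤ D.L s → s ∈ A) →
      D.zs M ((u⁻¹ : Rˣ) : R) A ∈ ratU u {q : ℤ × ℤ | ∃ B : Finset S, IrrSet D.L B ∧
        q = (-((Fintype.card σ - Module.finrank (AlgebraicClosure K) (B.inf D.L : Submodule _ _)
          : ℕ) : ℤ), (D.mul B : ℤ))}

/-- (BETA) Crapo's beta invariant of a connected matroid is not zero -/
def S_BETA : Prop :=
  ∀ {ι : Type} [DecidableEq ι] (r : Finset ι → ℤ), r ∅ = 0 →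
    (∀ (J : Finset ι) (i : ι), r J ≤ r (insert i J) ∧ r (insert i J) ≤ r J + 1) →
    (∀ J J' : Finset ι, r (J ∪ J') + r (J ∩ J') ≤ r J + r J') →
    ∀ I : Finset ι, I.Nonempty → (∀ i ∈ I, r {i} = 1) →
      (∀ J ⊆ I, J.Nonempty → (I \ J).Nonempty → r I < r J + r (I \ J)) →
      ∑ J ∈ I.powerset, (-1 : ℤ) ^ J.card * r J ≠ 0

/-- (EULER) complements of hyperplanes -/
def S_EULER : Prop :=
  ∀ {K : Type} [Field K] [IsAlgClosed K] {σ ι : Type} [Fintype σ] [DecidableEq ι]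
    {R : Type} [CommRing R] (M : Meas K R) (W : Submodule (AlgebraicClosure K) (Pt K σ))
    (I : Finset ι) (lam : ι → (Pt K σ →ₗ[AlgebraicClosure K] AlgebraicClosure K)),
    I.Nonempty → ∃ Q : Polynomial ℤ,
      M.χ σ (cmp W I lam) = (M.L - 1) * Polynomial.aeval M.L Q ∧
      (ConnF W I lam → Q.eval 1 ≠ 0)

/-- (FORMS) the sets `VV` for `C s = F^* v + L s` -/
def S_FORMS : Prop :=
  ∀ {K : Type} [Field K] {σ S : Type} [Fintype σ] [DecidableEq S]
    (L : S → Submodule (AlgebraicClosure K) (Pt K σ)) (v : Pt K σ) (A B : Finset S), B ⊆ A →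
    (∀ s ∈ A, v ∉ L s) →
    ∃ (W : Submodule (AlgebraicClosure K) (Pt K σ))
      (lam : S → (Pt K σ →ₗ[AlgebraicClosure K] AlgebraicClosure K)),
      {u : Pt K σ | (∀ s ∈ B, u ∈ L s) ∧ ∀ s ∈ A \ B, u ∈ conv (L s) v} =
        cmp W (A \ B) lam ∧
      (A.Nonempty → B = ∅ → (∀ A1 A2 : Finset S, A1.Nonempty → A2.Nonempty → Disjoint A1 A2 →
        A1 ∪ A2 = A → v ∉ A1.inf L ⊔ A2.inf L) → ConnF W A lam)

/-- (CONG) the classes of the jets, modulo `(𝕃 - 1) ^ 2` -/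
def S_CONG : Prop :=
  ∀ {K : Type} [Field K] [IsAlgClosed K] {σ S : Type} [Fintype σ] [DecidableEq S]
    (D : Dat K σ S) {R : Type} [CommRing R] (M : Meas K R) (w : R), M.L * w = 1 →
    ∀ (v : Pt K σ) (A : Finset S), A.Nonempty → (∀ s ∈ A, v ∉ D.L s) →
    (∀ s ∈ A, D.C s = conv (D.L s) v) →
    (∀ A1 A2 : Finset S, A1.Nonempty → A2.Nonempty → Disjoint A1 A2 →
        A1 ∪ A2 = A → v ∉ A1.inf D.L ⊔ A2.inf D.L) →
    ∃ χ : ℤ, χ ≠ 0 ∧ ∀ N : ℕ, 0 < N → ∃ y ∈ Algebra.adjoin ℤ ({M.L, w} : Set R),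
      M.χ _ (D.JS A {0} N N) =
        (M.L - 1) * (((if D.mul A ∣ N then χ else 0 : ℤ) : R) + (M.L - 1) * y)

/-- (ORD1) the order of the ideal on a jet -/
def S_ORD1 : Prop :=
  ∀ {K : Type} [Field K] {σ S : Type} [Fintype σ] [Fintype S] {κ : S → Type}
    (c : (s : S) → κ s → σ → K) (e : S → ℕ), (∀ s, 0 < e s) → ∀ N : ℕ,
    JetF (gens c e) {0} N = {z : Pt K (σ × Fin (N + 1)) | jk z 0 = 0 ∧ ∃ a : S → ℕ,
      (∀ s, (∀ k < a s, jk z k ∈ zerosF (c s)) ∧ jk z (a s) ∉ zerosF (c s)) ∧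
        ∑ s, e s * a s = N}

/-- (ORD2) the jets with given leading coefficients -/
def S_ORD2 : Prop :=
  ∀ {K : Type} [Field K] {σ S : Type} [Fintype σ] [Fintype S] [DecidableEq S] {κ : S → Type}
    (c : (s : S) → κ s → σ → K) (e : S → ℕ), (∀ s, 0 < e s) → ∀ (A : Finset S)
    (p v : Pt K σ), (∀ s ∈ A, v ∉ zerosF (c s)) → (∀ s ∈ A, p ∈ zerosF (c s)) →
    (∀ s, s ∉ A → p ∉ zerosF (c s)) → ∀ N : ℕ,
    JetE (gens c e) p (fun g => ∏ s, ∏ k, ∑ i, algebraMap K (AlgebraicClosure K)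
        (c s (g s k) i) * (if s ∈ A then v i else p i)) N =
      {z : Pt K (σ × Fin (N + 1)) | jk z 0 = p ∧ ∃ a : S → ℕ,
        (∀ s ∈ A, (∀ k < a s, jk z k ∈ zerosF (c s)) ∧ jk z (a s) ∈ conv (zerosF (c s)) v) ∧
          ∑ s ∈ A, e s * a s = N}

/-- (TRANS) subspaces over `K` and over the algebraic closure of `K`, for `K` algebraically closed -/
def S_TRANS : Prop :=
  ∀ {K : Type} [Field K] [IsAlgClosed K] {σ : Type} [Fintype σ],
    ∃ Φ : Submodule K (σ → K) ≃o Submodule (AlgebraicClosure K) (Pt K σ),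
      (∀ W, Module.finrank (AlgebraicClosure K) (Φ W) = Module.finrank K W) ∧
      (∀ W x, x ∈ W ↔ (fun i => algebraMap K (AlgebraicClosure K) (x i)) ∈ Φ W) ∧
      ∀ {κ : Type} (c : κ → σ → K), Φ (zeros c) = zerosF c

/-- (PT) points near the origin in general position -/
def S_PT : Prop :=
  ∀ {σ T : Type} [Fintype σ] [Finite T] (G : Submodule ℂ (σ → ℂ))
    (E : T → Submodule ℂ (σ → ℂ)), (∀ s, ¬ G ≤ E s) → ∀ ε : ℝ, 0 < ε →
    ∃ p ∈ G, ‖p‖ < ε ∧ ∀ s, p ∉ E s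

end Pool.Agent.D0H67.SUB
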