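import Pool.Agent.D0H67.SUB.Base
import Pool.Agent.W375.MT.Jet

/-! # Complements of hyperplanes -/

set_option autoImplicit false
set_option linter.unusedSectionVars false
set_option linter.unusedVariables false

namespace Pool.Agent.D0H67.SUB.Euler

open MvPolynomial Pool.Agent.W428.MOT Pool.Agent.TH192.MT Pool.Agent.D0H67.SUB.Base

section lin

variable {F V ι : Type} [Field F] [AddCommGroup V] [Module F V] [FiniteDimensional F V]
  [DecidableEq ι] (W : Submodule F V) (lam : ι → (V →ₗ[F] F))

/-- the subspace where the forms of `J` vanish -/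
noncomputable def KK (J : Finset ι) : Submodule F V := J.inf fun i => LinearMap.ker (lam i)

theorem KK_empty : KK lam ∅ = ⊤ := Finset.inf_empty

theorem KK_insert (i : ι) (J : Finset ι) : KK lam (insert i J) = LinearMap.ker (lam i) ⊓ KK lam J :=
  Finset.inf_insert

theorem KK_union (J J' : Finset ι) : KK lam (J ∪ J') = KK lam J ⊓ KK lam J' :=
  Finset.inf_union

/-- its dimension -/
noncomputable def dd (J : Finset ι) : ℕ := Module.finrank F (W ⊓ KK lam J : Submodule F V)

theorem codim_one (U : Submodule F V) (φ : V →ₗ[F] F) :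
    Module.finrank F U ≤ Module.finrank F (U ⊓ LinearMap.ker φ : Submodule F V) + 1 := by
  have h1 := Submodule.finrank_sup_add_finrank_inf_eq U (LinearMap.ker φ)
  have h2 := LinearMap.finrank_range_add_finrank_ker φ
  have h3 : Module.finrank F (LinearMap.range φ) ≤ 1 := by
    have := Submodule.finrank_le (LinearMap.range φ)
    rwa [Module.finrank_self] at this
  have h4 := Submodule.finrank_le (U ⊔ LinearMap.ker φ)
  omega

theorem dd_insert (J : Finset ι) (i : ι) :
    dd W lam (insert i J) ≤ dd W lam J ∧ dd W lam J ≤ dd W lam (insert i J) + 1 := by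
  unfold dd
  rw [KK_insert]
  constructor
  · exact Submodule.finrank_mono (inf_le_inf_left _ inf_le_right)
  · have h := codim_one (W ⊓ KK lam J) (lam i)
    rwa [inf_assoc, inf_comm (KK lam J)] at h

theorem dd_super (J J' : Finset ι) :
    dd W lam J + dd W lam J' ≤ dd W lam (J ∪ J') + dd W lam (J ∩ J') := by
  unfold dd
  have h1 := Submodule.finrank_sup_add_finrank_inf_eq (W ⊓ KK lam J) (W ⊓ KK lam J')
  have h2 : (W ⊓ KK lam J) ⊓ (W ⊓ KK lam J') = W ⊓ KK lam (J ∪ J') := by
    rw [KK_union, ← inf_inf_distrib_left]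
  have h3 : Module.finrank F ((W ⊓ KK lam J) ⊔ (W ⊓ KK lam J') : Submodule F V) ≤
      Module.finrank F (W ⊓ KK lam (J ∩ J') : Submodule F V) :=
    Submodule.finrank_mono (sup_le (inf_le_inf_left _ (Finset.inf_mono Finset.inter_subset_left))
      (inf_le_inf_left _ (Finset.inf_mono Finset.inter_subset_right)))
  rw [h2] at h1
  omega

theorem dd_empty : dd W lam ∅ = Module.finrank F W := by
  unfold dd
  rw [KK_empty, inf_top_eq]

theorem dd_single {i : ι} (h : ∃ u ∈ W, lam i u ≠ 0) : dd W lam {i} + 1 = dd W lam ∅ := by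
  have h1 := (dd_insert W lam ∅ i).2
  rw [insert_empty_eq] at h1
  have h2 : dd W lam {i} < dd W lam ∅ := by
    rw [dd_empty]
    refine Submodule.finrank_lt_finrank_of_lt (lt_of_le_of_ne inf_le_left ?_)
    intro h3
    obtain ⟨u, hu, hu'⟩ := h
    rw [← h3] at hu
    have h4 : u ∈ KK lam {i} := hu.2
    rw [KK, Finset.inf_singleton] at h4
    exact hu' h4
  omega

theorem dd_conn {I J : Finset ι} (hJ : J ⊆ I)
    (h : (W ⊓ J.inf fun i => LinearMap.ker (lam i)) ⊔
      (W ⊓ (I \ J).inf fun i => LinearMap.ker (lam i)) ≠ W) :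
    dd W lam J + dd W lam (I \ J) < dd W lam ∅ + dd W lam I := by
  rw [dd_empty]
  unfold dd
  have h1 := Submodule.finrank_sup_add_finrank_inf_eq (W ⊓ KK lam J) (W ⊓ KK lam (I \ J))
  have h2 : (W ⊓ KK lam J) ⊓ (W ⊓ KK lam (I \ J)) = W ⊓ KK lam I := by
    rw [← inf_inf_distrib_left, ← KK_union, Finset.union_sdiff_of_subset hJ]
  have h3 : Module.finrank F ((W ⊓ KK lam J) ⊔ (W ⊓ KK lam (I \ J)) : Submodule F V) <
      Module.finrank F W :=
    Submodule.finrank_lt_finrank_of_lt (lt_of_le_of_ne (sup_le inf_le_left inf_le_left) h)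
  rw [h2] at h1
  omega

end lin

section chi

variable {K : Type} [Field K] [IsAlgClosed K] {σ ι : Type} [Fintype σ] [DecidableEq ι]
  {R : Type} [CommRing R] (M : Meas K R)
  (lam : ι → (Pt K σ →ₗ[AlgebraicClosure K] AlgebraicClosure K))

theorem constr_cmp (W : Submodule (AlgebraicClosure K) (Pt K σ)) (I : Finset ι) :
    Constr (cmp W I lam) :=
  Constr.and (constr_sub W) (Constr.ballFinset I fun i _ => Constr.not (Constr.eqz (lin (lam i))))

theorem chi_cmp (I : Finset ι) : ∀ W : Submodule (AlgebraicClosure K) (Pt K σ),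
    M.χ σ (cmp W I lam) = ∑ J ∈ I.powerset, (-1) ^ J.card * M.L ^ dd W lam J := by
  induction I using Finset.induction_on with
  | empty =>
    intro W
    have h1 : cmp W ∅ lam = (W : Set (Pt K σ)) := by
      ext u
      simp [cmp]
    rw [h1, (cls W).2 M, Finset.powerset_empty, Finset.sum_singleton, Finset.card_empty,
      pow_zero, one_mul, dd_empty]
  | insert i I hi ih =>
    intro W
    have h1 : cmp W I lam = cmp W (insert i I) lam ∪ cmp (W ⊓ LinearMap.ker (lam i)) I lam := by
      ext u
      simp only [cmp, Set.mem_ofPred_eq, Set.mem_union, Finset.mem_insert, Submodule.mem_inf,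
        LinearMap.mem_ker, forall_eq_or_imp]
      tauto
    have h2 : Disjoint (cmp W (insert i I) lam) (cmp (W ⊓ LinearMap.ker (lam i)) I lam) := by
      rw [Set.disjoint_left]
      rintro u ⟨-, h3⟩ ⟨⟨-, h4⟩, -⟩
      exact h3 i (Finset.mem_insert_self i I) h4
    have h3 := M.add _ _ (constr_cmp lam W (insert i I))
      (constr_cmp lam (W ⊓ LinearMap.ker (lam i)) I) h2
    rw [← h1, ih W, ih (W ⊓ LinearMap.ker (lam i))] at h3
    rw [Finset.sum_powerset_insert hi, h3]
    have h4 : ∀ J ∈ I.powerset, (-1 : R) ^ (insert i J).card * M.L ^ dd W lam (insert i J) =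
        - ((-1) ^ J.card * M.L ^ dd (W ⊓ LinearMap.ker (lam i)) lam J) := by
      intro J hJ
      have h5 : i ∉ J := fun h => hi (Finset.mem_powerset.1 hJ h)
      rw [Finset.card_insert_of_notMem h5, pow_succ]
      have h6 : dd W lam (insert i J) = dd (W ⊓ LinearMap.ker (lam i)) lam J := by
        unfold dd
        rw [KK_insert, inf_assoc]
      rw [h6]
      ring
    rw [Finset.sum_congr rfl h4, Finset.sum_neg_distrib]
    ring

end chi

theorem main (hB : S_BETA) : S_EULER := by
  intro K _ _ σ ι _ _ R _ M W I lam hI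
  set P : Polynomial ℤ := ∑ J ∈ I.powerset, (-1) ^ J.card * Polynomial.X ^ dd W lam J with hP
  have hs : ∑ J ∈ I.powerset, (-1 : ℤ) ^ J.card = 0 :=
    Finset.sum_powerset_neg_one_pow_card_of_nonempty hI
  have h1 : P.eval 1 = 0 := by
    rw [hP, Polynomial.eval_finsetSum]
    simpa using hs
  obtain ⟨Q, hQ⟩ := Polynomial.dvd_iff_isRoot.2 h1
  have h2 : Polynomial.aeval M.L P = M.χ σ (cmp W I lam) := by
    rw [chi_cmp, hP, map_sum]
    simp
  refine ⟨Q, ?_, fun hc => ?_⟩
  · rw [← h2, hQ]
    simp
  · have h3 : Q.eval 1 = ∑ J ∈ I.powerset, (-1 : ℤ) ^ J.card * (dd W lam J : ℤ) := by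
      have h4 : (Polynomial.derivative P).eval 1 = Q.eval 1 := by
        rw [hQ]
        simp
      rw [← h4, hP]
      simp only [map_sum, Polynomial.eval_finsetSum]
      refine Finset.sum_congr rfl fun J _ => ?_
      have h5 : ((-1 : Polynomial ℤ)) ^ J.card = Polynomial.C ((-1) ^ J.card) := by
        simp
      rw [h5, Polynomial.derivative_C_mul, Polynomial.derivative_X_pow]
      simp
    have h6 := hB (fun J => (dd W lam ∅ : ℤ) - dd W lam J) (by simp) (fun J i => ?_)
      (fun J J' => ?_) I hI (fun i hi => ?_) (fun J hJ h7 h8 => ?_)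
    · intro h9
      apply h6
      simp only [mul_sub, Finset.sum_sub_distrib, ← Finset.sum_mul, hs, zero_mul, ← h3, h9,
        sub_zero]
    · have := dd_insert W lam J i
      constructor <;> (push_cast; omega)
    · have := dd_super W lam J J'
      push_cast
      omega
    · have := dd_single W lam (hc.2.1 i hi)
      push_cast
      omega
    · have := dd_conn W lam hJ (hc.2.2 J hJ h7 h8)
      push_cast
      omega

end Pool.Agent.D0H67.SUB.Euler
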