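import Pool.Agent.D0H67.SUB.Prod
import Pool.Agent.D0H67.SUB.Euler

/-! # Congruences modulo `(𝕃 - 1) ^ 2` -/

set_option autoImplicit false
set_option linter.unusedSectionVars false
set_option linter.unusedVariables false

namespace Pool.Agent.D0H67.SUB.Cong

open MvPolynomial Pool.Agent.W428.MOT Pool.Agent.TH192.MT Pool.Agent.D0H67.SUB.Base
  Pool.Agent.D0H67.SUB.Strat Pool.Agent.D0H67.SUB.Prod

section ring

variable {R : Type} [CommRing R] (L w : R)

/-- the multiples of `(L - 1) ^ k` -/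
def E (k : ℕ) (x : R) : Prop :=
  ∃ y ∈ Algebra.adjoin ℤ ({L, w} : Set R), x = (L - 1) ^ k * y

variable {L w}

theorem L_mem : L ∈ Algebra.adjoin ℤ ({L, w} : Set R) :=
  Algebra.subset_adjoin (Set.mem_insert _ _)

theorem w_mem : w ∈ Algebra.adjoin ℤ ({L, w} : Set R) :=
  Algebra.subset_adjoin (Set.mem_insert_of_mem _ rfl)

theorem E_zero (k : ℕ) : E L w k 0 := ⟨0, Subalgebra.zero_mem _, by rw [mul_zero]⟩

theorem E_of_mem {x : R} (h : x ∈ Algebra.adjoin ℤ ({L, w} : Set R)) : E L w 0 x :=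
  ⟨x, h, by rw [pow_zero, one_mul]⟩

theorem E_add {k : ℕ} {x y : R} (hx : E L w k x) (hy : E L w k y) : E L w k (x + y) := by
  obtain ⟨a, ha, rfl⟩ := hx
  obtain ⟨b, hb, rfl⟩ := hy
  exact ⟨a + b, Subalgebra.add_mem _ ha hb, by ring⟩

theorem E_neg {k : ℕ} {x : R} (hx : E L w k x) : E L w k (-x) := by
  obtain ⟨a, ha, rfl⟩ := hx
  exact ⟨-a, Subalgebra.neg_mem _ ha, by ring⟩

theorem E_sub {k : ℕ} {x y : R} (hx : E L w k x) (hy : E L w k y) : E L w k (x - y) := by
  rw [sub_eq_add_neg]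
  exact E_add hx (E_neg hy)

theorem E_mul {k l : ℕ} {x y : R} (hx : E L w k x) (hy : E L w l y) : E L w (k + l) (x * y) := by
  obtain ⟨a, ha, rfl⟩ := hx
  obtain ⟨b, hb, rfl⟩ := hy
  exact ⟨a * b, Subalgebra.mul_mem _ ha hb, by ring⟩

theorem E_mul0 {k : ℕ} {x y : R} (hx : E L w 0 x) (hy : E L w k y) : E L w k (x * y) := by
  have := E_mul hx hy
  rwa [Nat.zero_add] at this

theorem E_le {k l : ℕ} (h : k ≤ l) {x : R} (hx : E L w l x) : E L w k x := by
  obtain ⟨a, ha, rfl⟩ := hx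
  obtain ⟨j, rfl⟩ := Nat.exists_eq_add_of_le h
  exact ⟨(L - 1) ^ j * a, Subalgebra.mul_mem _ (Subalgebra.pow_mem _
    (Subalgebra.sub_mem _ L_mem (Subalgebra.one_mem _)) _) ha, by ring⟩

theorem E_sum {k : ℕ} {α : Type} (s : Finset α) (f : α → R) (h : ∀ a ∈ s, E L w k (f a)) :
    E L w k (∑ a ∈ s, f a) := by
  classical
  induction s using Finset.induction_on with
  | empty =>
    rw [Finset.sum_empty]
    exact E_zero k
  | insert a s ha ih =>
    rw [Finset.sum_insert ha]
    exact E_add (h a (Finset.mem_insert_self _ _))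
      (ih fun b hb => h b (Finset.mem_insert_of_mem hb))

theorem E_pow_sub {x : R} (h0 : E L w 0 x) (h : E L w 1 (x - 1)) (k : ℕ) :
    E L w 1 (x ^ k - 1) := by
  induction k with
  | zero =>
    rw [pow_zero, sub_self]
    exact E_zero 1
  | succ k ih =>
    have h1 : x ^ (k + 1) - 1 = x * (x ^ k - 1) + (x - 1) := by ring
    rw [h1]
    exact E_add (E_mul0 h0 ih) h

theorem E_L : E L w 1 (L - 1) := ⟨1, Subalgebra.one_mem _, by ring⟩

theorem E_w (h : L * w = 1) : E L w 1 (w - 1) :=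
  ⟨-w, Subalgebra.neg_mem _ w_mem, by linear_combination h⟩

theorem E_pow0 {x : R} (h0 : E L w 0 x) (k : ℕ) : E L w 0 (x ^ k) := by
  obtain ⟨a, ha, rfl⟩ := h0
  exact ⟨a ^ k, Subalgebra.pow_mem _ ha k, by ring⟩

theorem aeval_mem (Q : Polynomial ℤ) :
    Polynomial.aeval L Q ∈ Algebra.adjoin ℤ ({L, w} : Set R) := by
  rw [Polynomial.aeval_eq_sum_range]
  exact Subalgebra.sum_mem _ fun i _ => Subalgebra.smul_mem _ (Subalgebra.pow_mem _ L_mem _) _

theorem E_aeval (Q : Polynomial ℤ) : E L w 1 (Polynomial.aeval L Q - ((Q.eval 1 : ℤ) : R)) := by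
  have h1 : (Q - Polynomial.C (Q.eval 1)).IsRoot 1 := by
    simp
  obtain ⟨P, hP⟩ := Polynomial.dvd_iff_isRoot.2 h1
  refine ⟨Polynomial.aeval L P, aeval_mem P, ?_⟩
  have h2 := congrArg (Polynomial.aeval L) hP
  simp only [map_sub, map_mul, Polynomial.aeval_X, map_one] at h2
  rw [pow_one]
  rw [← h2]
  congr 1
  simp

end ring

theorem main (hF : S_FORMS) (hEu : S_EULER) : S_CONG := by
  intro K _ _ σ S _ _ D R _ M w hw v A hA hv hC hsp
  have hL : ∀ s, Constr (D.L s : Set (Pt K σ)) := fun s => constr_sub (D.L s)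
  have hE := Eng.main D hL M w hw
  have hE0w : E M.L w 0 w := E_of_mem w_mem
  have hE0L : E M.L w 0 M.L := E_of_mem L_mem
  have hE0one : E M.L w 0 1 := E_of_mem (Subalgebra.one_mem _)
  -- the coefficients
  set c : ℕ → Finset S → R := fun N B => PowerSeries.coeff N (D.zs M w B) with hc
  have hrec : ∀ N B, c N B = if D.mul B ≤ N then w ^ Fintype.card σ *
      ∑ B' ∈ B.powerset, M.χ σ (D.VV B B') * c (N - D.mul B) B' else 0 := by
    intro N B
    change PowerSeries.coeff N (D.zs M w B) = _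
    rw [hE.2 B, mul_assoc, PowerSeries.coeff_C_mul, PowerSeries.coeff_X_pow_mul']
    split_ifs with h
    · rw [map_sum]
      congr 1
      refine Finset.sum_congr rfl fun B' _ => ?_
      rw [PowerSeries.coeff_C_mul]
    · rw [mul_zero]
  have hempty : ∀ N, c N ∅ = if N = 0 then 1 else 0 := by
    intro N
    change PowerSeries.coeff N (D.zs M w ∅) = _
    rw [hE.1, PowerSeries.coeff_one]
  -- the strata
  have hforms : ∀ B ⊆ A, ∀ B' ⊆ B, ∃ (W : Submodule (AlgebraicClosure K) (Pt K σ))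
      (lam : S → (Pt K σ →ₗ[AlgebraicClosure K] AlgebraicClosure K)),
      D.VV B B' = cmp W (B \ B') lam ∧ (B.Nonempty → B' = ∅ → (∀ A1 A2 : Finset S,
        A1.Nonempty → A2.Nonempty → Disjoint A1 A2 → A1 ∪ A2 = B →
          v ∉ A1.inf D.L ⊔ A2.inf D.L) → ConnF W B lam) := by
    intro B hB B' hB'
    obtain ⟨W, lam, h1, h2⟩ := hF D.L v B B' hB' fun s hs => hv s (hB hs)
    refine ⟨W, lam, ?_, h2⟩
    rw [← h1]
    ext u
    refine and_congr_right fun _ => forall₂_congr fun s hs => ?_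
    rw [hC s (hB (Finset.mem_sdiff.1 hs).1)]
  have hVV : ∀ B ⊆ A, ∀ B' ⊆ B, B' ≠ B → E M.L w 1 (M.χ σ (D.VV B B')) := by
    intro B hB B' hB' hne
    obtain ⟨W, lam, h1, -⟩ := hforms B hB B' hB'
    have h2 : (B \ B').Nonempty := by
      rw [Finset.sdiff_nonempty]
      exact fun h => hne (Finset.Subset.antisymm hB' h)
    obtain ⟨Q, hQ, -⟩ := hEu M W (B \ B') lam h2
    rw [h1, hQ]
    exact ⟨_, aeval_mem Q, by rw [pow_one]⟩
  have hVself : ∀ B, ∃ d : ℕ, M.χ σ (D.VV B B) = M.L ^ d := by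
    intro B
    refine ⟨Module.finrank (AlgebraicClosure K) (B.inf D.L : Submodule _ _), ?_⟩
    have h1 : D.VV B B = ((B.inf D.L : Submodule _ _) : Set (Pt K σ)) := by
      ext u
      simp only [Dat.VV, Finset.sdiff_self, Finset.notMem_empty, false_imp_iff, implies_true,
        and_true, Set.mem_ofPred_eq, SetLike.mem_coe, Submodule.mem_finsetInf]
    rw [h1, (cls (B.inf D.L)).2 M]
  -- (c)
  have hc1 : ∀ N, ∀ B ⊆ A, B.Nonempty → E M.L w 1 (c N B) := by
    intro N
    induction N using Nat.strong_induction_on with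
    | _ N ih =>
      intro B hB hB0
      rw [hrec]
      split_ifs with h
      swap
      · exact E_zero 1
      refine E_mul0 (E_pow0 hE0w _) (E_sum _ _ fun B' hB' => ?_)
      rw [Finset.mem_powerset] at hB'
      have hlt : N - D.mul B < N := by
        have := mul_pos D hB0
        omega
      by_cases h1 : B' = B
      · rw [h1]
        obtain ⟨d, hd⟩ := hVself B
        rw [hd]
        exact E_mul0 (E_pow0 hE0L _) (ih _ hlt B hB hB0)
      · have h2 : E M.L w 0 (c (N - D.mul B) B') := by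
          by_cases h3 : B'.Nonempty
          · exact E_le (Nat.zero_le 1) (ih _ hlt B' (hB'.trans hB) h3)
          · rw [Finset.not_nonempty_iff_eq_empty.1 h3, hempty]
            split_ifs
            · exact hE0one
            · exact E_zero 0
        exact E_mul (hVV B hB B' hB' h1) h2
  -- the Euler characteristic
  obtain ⟨W, lam, hW, hcon⟩ := hforms A (Finset.Subset.refl A) ∅ (Finset.empty_subset A)
  rw [Finset.sdiff_empty] at hW
  obtain ⟨Q, hQ, hQ0⟩ := hEu M W A lam hA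
  refine ⟨Q.eval 1, hQ0 (hcon hA rfl hsp), ?_⟩
  have hm := mul_pos D hA
  -- (d)
  have hstep : ∀ N, D.mul A ≤ N → E M.L w 2 (c N A - (c (N - D.mul A) A +
      if N - D.mul A = 0 then (M.L - 1) * ((Q.eval 1 : ℤ) : R) else 0)) := by
    intro N hN
    have h1 : A ∈ A.powerset := Finset.mem_powerset.2 (Finset.Subset.refl A)
    have h2 : ∅ ∈ A.powerset.erase A := by
      rw [Finset.mem_erase, Finset.mem_powerset]
      exact ⟨fun h => hA.ne_empty h.symm, Finset.empty_subset A⟩
    obtain ⟨d, hd⟩ := hVself A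
    have h3 : c N A = w ^ Fintype.card σ * ((∑ B ∈ (A.powerset.erase A).erase ∅,
        M.χ σ (D.VV A B) * c (N - D.mul A) B + M.χ σ (D.VV A ∅) * c (N - D.mul A) ∅) +
          M.L ^ d * c (N - D.mul A) A) := by
      rw [hrec, if_pos hN, ← Finset.sum_erase_add _ _ h1, ← Finset.sum_erase_add _ _ h2, hd]
    have h4 : E M.L w 2 (∑ B ∈ (A.powerset.erase A).erase ∅,
        M.χ σ (D.VV A B) * c (N - D.mul A) B) := by
      refine E_sum _ _ fun B hB => ?_
      rw [Finset.mem_erase, Finset.mem_erase, Finset.mem_powerset] at hB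
      exact E_mul (hVV A (Finset.Subset.refl A) B hB.2.2 hB.2.1)
        (hc1 _ B hB.2.2 (Finset.nonempty_iff_ne_empty.2 hB.1))
    have h5 : E M.L w 2 (w ^ Fintype.card σ * (M.χ σ (D.VV A ∅) * c (N - D.mul A) ∅) -
        if N - D.mul A = 0 then (M.L - 1) * ((Q.eval 1 : ℤ) : R) else 0) := by
      rw [hempty, hW, hQ]
      split_ifs
      · have h6 : w ^ Fintype.card σ * ((M.L - 1) * Polynomial.aeval M.L Q * 1) -
            (M.L - 1) * ((Q.eval 1 : ℤ) : R) = (M.L - 1) * ((w ^ Fintype.card σ - 1) *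
              Polynomial.aeval M.L Q + (Polynomial.aeval M.L Q - ((Q.eval 1 : ℤ) : R))) := by
          ring
        rw [h6]
        exact E_mul E_L (E_add (E_mul (E_pow_sub hE0w (E_w hw) _) (E_of_mem (aeval_mem Q)))
          (E_aeval Q))
      · rw [mul_zero, mul_zero, sub_zero]
        exact E_zero 2
    have h6 : E M.L w 2 (w ^ Fintype.card σ * (M.L ^ d * c (N - D.mul A) A) -
        c (N - D.mul A) A) := by
      have h7 : w ^ Fintype.card σ * (M.L ^ d * c (N - D.mul A) A) - c (N - D.mul A) A =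
          ((w ^ Fintype.card σ - 1) * M.L ^ d + (M.L ^ d - 1)) * c (N - D.mul A) A := by ring
      rw [h7]
      exact E_mul (E_add (E_mul (E_pow_sub hE0w (E_w hw) _) (E_pow0 hE0L d))
        (E_pow_sub hE0L E_L d)) (hc1 _ A (Finset.Subset.refl A) hA)
    have h8 := E_add (E_add (E_mul0 (E_pow0 hE0w (Fintype.card σ)) h4) h5) h6
    have h9 : c N A - (c (N - D.mul A) A +
        if N - D.mul A = 0 then (M.L - 1) * ((Q.eval 1 : ℤ) : R) else 0) =
        w ^ Fintype.card σ * (∑ B ∈ (A.powerset.erase A).erase ∅,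
        M.χ σ (D.VV A B) * c (N - D.mul A) B) + (w ^ Fintype.card σ * (M.χ σ (D.VV A ∅) *
          c (N - D.mul A) ∅) - if N - D.mul A = 0 then (M.L - 1) * ((Q.eval 1 : ℤ) : R) else 0) +
          (w ^ Fintype.card σ * (M.L ^ d * c (N - D.mul A) A) - c (N - D.mul A) A) := by
      rw [h3]
      ring
    rw [h9]
    exact h8
  have hd : ∀ N, E M.L w 2 (c N A - if N ≠ 0 ∧ D.mul A ∣ N then
      (M.L - 1) * ((Q.eval 1 : ℤ) : R) else 0) := by
    intro N
    induction N using Nat.strong_induction_on with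
    | _ N ih =>
      by_cases h : D.mul A ≤ N
      · have h1 := E_add (hstep N h) (ih (N - D.mul A) (by omega))
        convert h1 using 1
        have h2 : D.mul A ∣ N ↔ D.mul A ∣ N - D.mul A := by
          rw [Nat.dvd_sub_iff_left h (dvd_refl _)]
        have h3 : N ≠ 0 := by omega
        by_cases h4 : N - D.mul A = 0
        · have h5 : D.mul A ∣ N := by
            rw [h2, h4]
            exact dvd_zero _
          rw [if_pos h4, if_pos ⟨h3, h5⟩, if_neg (by rintro ⟨h6, -⟩; exact h6 h4)]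
          ring
        · rw [if_neg h4]
          by_cases h5 : D.mul A ∣ N
          · rw [if_pos ⟨h3, h5⟩, if_pos ⟨h4, h2.1 h5⟩]
            ring
          · rw [if_neg (by rintro ⟨-, h6⟩; exact h5 h6),
              if_neg (by rintro ⟨-, h6⟩; exact h5 (h2.2 h6))]
            ring
      · rw [hrec, if_neg h, if_neg, sub_zero]
        · exact E_zero 2
        · rintro ⟨h1, h2⟩
          exact h (Nat.le_of_dvd (Nat.pos_of_ne_zero h1) h2)
  -- (e)
  intro N hN
  have h1 : M.χ _ (D.JS A {0} N N) = M.L ^ (Fintype.card σ * N) * c N A := by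
    change _ = M.L ^ (Fintype.card σ * N) * PowerSeries.coeff N (D.zs M w A)
    unfold Dat.zs
    rw [PowerSeries.coeff_mk]
    have h2 : M.L ^ (Fintype.card σ * N) * w ^ (Fintype.card σ * N) = 1 := by
      rw [← mul_pow, hw, one_pow]
    linear_combination (- M.χ _ (D.JS A {0} N N)) * h2
  have h2 : E M.L w 2 (M.χ _ (D.JS A {0} N N) -
      if D.mul A ∣ N then (M.L - 1) * ((Q.eval 1 : ℤ) : R) else 0) := by
    have h3 := hd N
    have h4 : E M.L w 2 ((M.L ^ (Fintype.card σ * N) - 1) * c N A) :=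
      E_mul (E_pow_sub hE0L E_L _) (hc1 N A (Finset.Subset.refl A) hA)
    convert E_add h4 h3 using 1
    rw [h1]
    by_cases h5 : D.mul A ∣ N
    · rw [if_pos h5, if_pos ⟨hN.ne', h5⟩]
      ring
    · rw [if_neg h5, if_neg (by rintro ⟨-, h6⟩; exact h5 h6)]
      ring
  obtain ⟨y, hy, h3⟩ := h2
  refine ⟨y, hy, ?_⟩
  rw [sub_eq_iff_eq_add] at h3
  rw [h3]
  split_ifs
  · ring
  · push_cast
    ring

end Pool.Agent.D0H67.SUB.Cong
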