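import Pool.Agent.D0H67.SUB.Rat
import Pool.Agent.D0H67.SUB.Cong
import Pool.Agent.TH192.MT.IdJet

/-! # The final assembly -/

set_option autoImplicit false
set_option linter.unusedSectionVars false
set_option linter.unusedVariables false

namespace Pool.Agent.D0H67.SUB

open MvPolynomial Pool.Agent.W428.MOT Pool.Agent.TH192.MT Pool.Agent.TH192.DT

/-- `x = (𝕃 - 1) 𝕃 ^ (-k) P(𝕃)` in `𝓜_K`, for a polynomial `P` with integral coefficients and
`P(1) = a`. If `x` is the class of a variety `X` with an action of `𝔾_m` with finite stabilizers,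
then `[X] = (𝕃 - 1) [X / 𝔾_m]`, and the Euler characteristic of `X / 𝔾_m` is `a`. -/
def EulerQ {K : Type} [Field K] (x : K0 K) (a : ℤ) : Prop :=
  ∃ (P : Polynomial ℤ) (k : ℕ), P.eval 1 = a ∧
    algebraMap (K0 K) (MK K) x * ((Lu K : (MK K)ˣ) : MK K) ^ k =
      (((Lu K : (MK K)ˣ) : MK K) - 1) *
        P.eval₂ (Int.castRingHom (MK K)) ((Lu K : (MK K)ˣ) : MK K)

/-- The monodromy zeta function of the ideal `(f_j)` at the point `e = (p, [y])` of the exceptional
divisor of its blow-up is `∏_M (1 - t ^ M) ^ (b M)`. -/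
def MonZeta {σ J : Type} [Fintype σ] (f : J → MvPolynomial σ ℂ) (p : σ → ℂ) (y : J → ℂ)
    (b : ℕ →₀ ℤ) : Prop :=
  y ≠ 0 ∧
  (∃ N, 0 < N ∧ (JetE f (fun i => algebraMap ℂ (AlgebraicClosure ℂ) (p i))
    (fun j => algebraMap ℂ (AlgebraicClosure ℂ) (y j)) N).Nonempty) ∧
  b 0 = 0 ∧
  ∀ N, 0 < N → EulerQ (cls (σ × Fin (N + 1)) (JetE f
    (fun i => algebraMap ℂ (AlgebraicClosure ℂ) (p i))
    (fun j => algebraMap ℂ (AlgebraicClosure ℂ) (y j)) N)) (∑ M ∈ b.support with M ∣ N, b M)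

namespace Fin

section

variable {K : Type} [Field K] [IsAlgClosed K] {σ S : Type} [Fintype σ] [DecidableEq S]

/-- the data for the order -/
noncomputable def D1 (L : S → Submodule (AlgebraicClosure K) (Pt K σ)) (e : S → ℕ)
    (he : ∀ s, 0 < e s) : Dat K σ S where
  L := L
  C := fun s => (L s : Set (Pt K σ))ᶜ
  e := e
  cC := fun s => (Base.constr_sub (L s)).compl
  he := he
  dis := fun s x hx => hx
  tr := fun s x hx y hy h => hx (by
    have := (L s).sub_mem h hy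
    rwa [add_sub_cancel_right] at this)

theorem conv_eq (L : Submodule (AlgebraicClosure K) (Pt K σ)) {v : Pt K σ} (hv : v ∉ L) :
    conv L v = ((Submodule.span (AlgebraicClosure K) {v} ⊔ L : Submodule _ _) : Set (Pt K σ)) ∩
      (L : Set (Pt K σ))ᶜ := by
  ext u
  constructor
  · rintro ⟨a, ha, h⟩
    refine ⟨?_, fun h1 => hv ?_⟩
    · rw [SetLike.mem_coe, Submodule.mem_sup]
      exact ⟨a • v, Submodule.smul_mem _ _ (Submodule.mem_span_singleton_self v), _, h, by abel⟩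
    · have h2 : a • v ∈ L := by
        have := L.sub_mem h1 h
        rwa [sub_sub_cancel] at this
      have h3 := L.smul_mem a⁻¹ h2
      rwa [inv_smul_smul₀ ha] at h3
  · rintro ⟨h1, h2⟩
    rw [SetLike.mem_coe, Submodule.mem_sup] at h1
    obtain ⟨x, hx, y, hy, hxy⟩ := h1
    obtain ⟨a, rfl⟩ := Submodule.mem_span_singleton.1 hx
    refine ⟨a, ?_, ?_⟩
    · rintro rfl
      rw [zero_smul, zero_add] at hxy
      rw [← hxy] at h2
      exact h2 hy
    · rw [← hxy, add_sub_cancel_left]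
      exact hy

open Classical in
/-- the data for the leading coefficients -/
noncomputable def D2 (L : S → Submodule (AlgebraicClosure K) (Pt K σ)) (e : S → ℕ)
    (he : ∀ s, 0 < e s) (v : Pt K σ) (A : Finset S) (hv : ∀ s ∈ A, v ∉ L s) : Dat K σ S where
  L := L
  C := fun s => if s ∈ A then conv (L s) v else ∅
  e := e
  cC := fun s => by
    by_cases h : s ∈ A
    · rw [if_pos h, conv_eq (L s) (hv s h)]
      exact (Base.constr_sub _).inter (Base.constr_sub (L s)).compl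
    · rw [if_neg h]
      exact Constr.empty
  he := he
  dis := fun s x hx => by
    by_cases h : s ∈ A
    · rw [if_pos h, conv_eq (L s) (hv s h)] at hx
      exact hx.2
    · rw [if_neg h] at hx
      exact absurd hx (Set.notMem_empty x)
  tr := fun s x hx y hy => by
    by_cases h : s ∈ A
    · rw [if_pos h] at hx ⊢
      obtain ⟨a, ha, h1⟩ := hx
      refine ⟨a, ha, ?_⟩
      have := (L s).add_mem h1 hy
      rwa [sub_add_eq_add_sub] at this
    · rw [if_neg h] at hx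
      exact absurd hx (Set.notMem_empty x)

theorem constr_pt (p : Pt K σ) : Constr ({p} : Set (Pt K σ)) := by
  have h : ({p} : Set (Pt K σ)) = {z | ∀ i, z i = p i} := by
    ext z
    exact funext_iff
  rw [h]
  exact Constr.all fun i => Constr.eq (IsPF.coord i) (Base.pf_const _)

theorem chi_pt {R : Type} [CommRing R] (M : Meas K R) (p : Pt K σ) :
    M.χ σ ({p} : Set (Pt K σ)) = 1 := by
  rw [← Trn.chi_zero M (σ := σ)]
  refine M.iso _ _ (constr_pt p) Shift.constr_z (fun _ => 0) (fun _ => p)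
    (regularOn_poly (fun i => IsPF.zero) _) (regularOn_poly (fun i => Base.pf_const (p i)) _)
    (fun _ _ => rfl) (fun _ _ => rfl) ?_ ?_
  · intro z hz
    exact (Set.mem_singleton_iff.1 hz).symm
  · intro z hz
    exact (Set.mem_singleton_iff.1 hz).symm

/-- transport of irreducible sets -/
theorem irr_iff {V V' F F' : Type} [Field F] [Field F'] [AddCommGroup V] [AddCommGroup V']
    [Module F V] [Module F' V'] (Φ : Submodule F V ≃o Submodule F' V') (L : S → Submodule F V)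
    (A : Finset S) : IrrSet (fun s => Φ (L s)) A ↔ IrrSet L A := by
  have h1 : ∀ B : Finset S, B.inf (fun s => Φ (L s)) = Φ (B.inf L) := by
    intro B
    exact (map_finset_inf Φ B L).symm
  unfold IrrSet
  simp only [h1, ← map_sup, OrderIso.le_iff_le]
  have h2 : ∀ W, Φ W ≠ ⊤ ↔ W ≠ ⊤ := fun W => by rw [Ne, Ne, map_eq_top_iff]
  simp only [h2]

end

/-- (1) rationality -/
theorem rat (hO : S_ORD1) (hT : S_TRANS) {σ S : Type} [Fintype σ] [Fintype S] [DecidableEq S]
    {κ : S → Type} (c : (s : S) → κ s → σ → ℂ) (e : S → ℕ) (he : ∀ s, 0 < e s)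
    (hc : ∀ s, zeros (c s) ≠ ⊤) :
    zetaJ (gens c e) ∈ ratRing ℂ {q : ℤ × ℤ | ∃ A : Finset S, IrrSet (fun s => zeros (c s)) A ∧
      q = (-((Fintype.card σ - Module.finrank ℂ (A.inf fun s => zeros (c s) : Submodule _ _)
        : ℕ) : ℤ), ((∑ s ∈ A, e s : ℕ) : ℤ))} := by
  obtain ⟨Φ, h1, h2, h3⟩ := hT (K := ℂ) (σ := σ)
  obtain ⟨M, hL, hM⟩ := exists_meas ℂ
  set D := D1 (K := ℂ) (fun s => zerosF (c s)) e he with hD
  have h4 : (fun s => Φ (zeros (c s))) = fun s => zerosF (c s) := funext fun s => h3 (c s)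
  have hT' : ∀ s, D.L s ≠ ⊤ := by
    intro s
    change zerosF (c s) ≠ ⊤
    rw [← h3 (c s), Ne, map_eq_top_iff]
    exact hc s
  have h5 := Rat.main D hT' (fun s => rfl) M (Lu ℂ) hL Finset.univ fun s _ => Finset.mem_univ s
  have h6 : {q : ℤ × ℤ | ∃ B : Finset S, IrrSet D.L B ∧
        q = (-((Fintype.card σ - Module.finrank (AlgebraicClosure ℂ) (B.inf D.L : Submodule _ _)
          : ℕ) : ℤ), (D.mul B : ℤ))} = {q : ℤ × ℤ | ∃ A : Finset S,
        IrrSet (fun s => zeros (c s)) A ∧ q = (-((Fintype.card σ - Module.finrank ℂ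
          (A.inf fun s => zeros (c s) : Submodule _ _) : ℕ) : ℤ), ((∑ s ∈ A, e s : ℕ) : ℤ))} := by
    ext q
    refine exists_congr fun B => ?_
    have h7 : IrrSet D.L B ↔ IrrSet (fun s => zeros (c s)) B := by
      rw [← irr_iff Φ (fun s => zeros (c s)) B, h4]
      rfl
    have h8 : Module.finrank (AlgebraicClosure ℂ) (B.inf D.L : Submodule _ _) =
        Module.finrank ℂ (B.inf fun s => zeros (c s) : Submodule _ _) := by
      rw [← h1, map_finset_inf Φ B fun s => zeros (c s)]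
      change _ = Module.finrank (AlgebraicClosure ℂ) (B.inf (fun s => Φ (zeros (c s))) :
        Submodule _ _)
      rw [h4]
      rfl
    rw [h7, h8]
    rfl
  rw [h6] at h5
  refine Subalgebra.mul_mem _ (rat_C (Lu ℂ) _) (drop_mem ?_)
  have h9 : (PowerSeries.mk fun N => algebraMap (K0 ℂ) (MK ℂ) (cls (σ × _root_.Fin (N + 1))
      (JetF (gens c e) {0} N)) *
      (((Lu ℂ) ^ (-((Fintype.card σ * N : ℕ) : ℤ)) : (MK ℂ)ˣ) : MK ℂ)) =
      D.zs M (((Lu ℂ)⁻¹ : (MK ℂ)ˣ) : MK ℂ) Finset.univ := by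
    unfold Dat.zs
    congr 1
    funext N
    rw [hM, inv_pow_eq, hO c e he N]
    congr 3
    ext z
    refine and_congr Iff.rfl (exists_congr fun a => and_congr ?_ Iff.rfl)
    exact forall_congr' fun s => ⟨fun h _ => h, fun h => h (Finset.mem_univ s)⟩
  rw [h9]
  exact h5

theorem exists_poly {R : Type} [CommRing R] {L w : R} (y : R)
    (hy : y ∈ Algebra.adjoin ℤ ({L, w} : Set R)) (hw : L * w = 1) :
    ∃ (Q : Polynomial ℤ) (k : ℕ), y * L ^ k = Q.eval₂ (Int.castRingHom R) L := by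
  induction hy using Algebra.adjoin_induction with
  | mem x hx =>
    rcases hx with rfl | hx
    · exact ⟨Polynomial.X, 0, by simp⟩
    · rw [Set.mem_singleton_iff] at hx
      subst hx
      exact ⟨1, 1, by rw [pow_one, mul_comm, hw, Polynomial.eval₂_one]⟩
  | algebraMap r =>
    exact ⟨Polynomial.C r, 0, by rw [pow_zero, mul_one, Polynomial.eval₂_C]; rfl⟩
  | add x y _ _ hx hy =>
    obtain ⟨Q, k, hQ⟩ := hx
    obtain ⟨P, l, hP⟩ := hy
    refine ⟨Polynomial.X ^ l * Q + Polynomial.X ^ k * P, k + l, ?_⟩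
    rw [Polynomial.eval₂_add, Polynomial.eval₂_mul, Polynomial.eval₂_mul, ← hQ, ← hP,
      Polynomial.eval₂_X_pow, Polynomial.eval₂_X_pow]
    ring
  | mul x y _ _ hx hy =>
    obtain ⟨Q, k, hQ⟩ := hx
    obtain ⟨P, l, hP⟩ := hy
    refine ⟨Q * P, k + l, ?_⟩
    rw [Polynomial.eval₂_mul, ← hQ, ← hP]
    ring

/-- (2) the monodromy zeta functions -/
theorem mon (hO : S_ORD2) (hT : S_TRANS) (hP : S_PT) (hF : S_FORMS) (hC : S_CONG)
    {σ S : Type} [Fintype σ] [Fintype S] [DecidableEq S]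
    {κ : S → Type} (c : (s : S) → κ s → σ → ℂ) (e : S → ℕ) (he : ∀ s, 0 < e s)
    (hc : ∀ s, zeros (c s) ≠ ⊤) (A : Finset S) (hA : IrrSet (fun s => zeros (c s)) A) (ε : ℝ)
    (hε : 0 < ε) : ∃ p ∈ (A.inf fun s => zeros (c s) : Submodule ℂ (σ → ℂ)), ‖p‖ < ε ∧
      ∃ (y : ((s : S) → _root_.Fin (e s) → κ s) → ℂ) (χ : ℤ), χ ≠ 0 ∧
        MonZeta (gens c e) p y (Finsupp.single (∑ s ∈ A, e s) χ) := by
  obtain ⟨Φ, h1, h2, h3⟩ := hT (K := ℂ) (σ := σ)
  obtain ⟨M, hL, hM⟩ := exists_meas ℂ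
  obtain ⟨hA0, hA1, hA2⟩ := hA
  set L : S → Submodule ℂ (σ → ℂ) := fun s => zeros (c s) with hLdef
  -- the point
  obtain ⟨p, hpG, hpε, hp⟩ := hP (A.inf L) (fun s : {s // s ∉ A} => L s)
    (fun s h => s.2 (hA1 s h)) ε hε
  -- the direction
  obtain ⟨v, -, -, hv⟩ := hP (⊤ : Submodule ℂ (σ → ℂ))
    (fun t : S ⊕ {P : Finset S × Finset S // P.1.inf L ⊔ P.2.inf L ≠ ⊤} =>
      Sum.elim (fun s => L s) (fun P => P.1.1.inf L ⊔ P.1.2.inf L) t) (by
      rintro (s | P) h
      · exact hc s (top_le_iff.1 h)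
      · exact P.2 (top_le_iff.1 h)) 1 one_pos
  have hvL : ∀ s, v ∉ L s := fun s => hv (Sum.inl s)
  have hvP : ∀ A1 A2 : Finset S, A1.inf L ⊔ A2.inf L ≠ ⊤ → v ∉ A1.inf L ⊔ A2.inf L :=
    fun A1 A2 h => hv (Sum.inr ⟨(A1, A2), h⟩)
  set pF : Pt ℂ σ := fun i => algebraMap ℂ (AlgebraicClosure ℂ) (p i) with hpF
  set vF : Pt ℂ σ := fun i => algebraMap ℂ (AlgebraicClosure ℂ) (v i) with hvF
  have h4 : ∀ s, Φ (L s) = zerosF (c s) := fun s => h3 (c s)
  have h5 : ∀ B : Finset S, B.inf (fun s => zerosF (c s)) = Φ (B.inf L) := by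
    intro B
    rw [map_finset_inf Φ B L]
    exact Finset.inf_congr rfl fun s _ => (h4 s).symm
  have hvF' : ∀ s, vF ∉ zerosF (c s) := fun s => by
    rw [← h4, ← h2]
    exact hvL s
  have hpA : ∀ s ∈ A, p ∈ L s := fun s hs => (Finset.inf_le (f := L) hs) hpG
  have hpF1 : ∀ s ∈ A, pF ∈ zerosF (c s) := fun s hs => by
    rw [← h4, ← h2]
    exact hpA s hs
  have hpF2 : ∀ s, s ∉ A → pF ∉ zerosF (c s) := fun s hs => by
    rw [← h4, ← h2]
    exact hp ⟨s, hs⟩
  set D := D2 (K := ℂ) (fun s => zerosF (c s)) e he vF A (fun s _ => hvF' s) with hD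
  have hLc : ∀ s, Constr (D.L s : Set (Pt ℂ σ)) := fun s => Base.constr_sub (D.L s)
  have hLw : M.L * (((Lu ℂ)⁻¹ : (MK ℂ)ˣ) : MK ℂ) = 1 := by rw [hL, Units.mul_inv]
  have hDC : ∀ s ∈ A, D.C s = conv (D.L s) vF := fun s hs => if_pos hs
  obtain ⟨χ, hχ, hN⟩ := hC D M _ hLw vF A hA0 (fun s _ => hvF' s) hDC
    (fun A1 A2 hA1' hA2' hd hU => by
      have h6 := hvP A1 A2 (hA2 A1 A2 hA1' hA2' hd hU)
      change vF ∉ (A1.inf fun s => zerosF (c s)) ⊔ (A2.inf fun s => zerosF (c s))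
      rw [h5, h5, ← map_sup, ← h2]
      exact h6)
  -- the vector of the leading coefficients
  set y : ((s : S) → _root_.Fin (e s) → κ s) → ℂ := fun g => ∏ s, ∏ k, ∑ i,
    c s (g s k) i * (if s ∈ A then v i else p i) with hy
  have hyF : (fun g => algebraMap ℂ (AlgebraicClosure ℂ) (y g)) = fun g => ∏ s, ∏ k, ∑ i,
      algebraMap ℂ (AlgebraicClosure ℂ) (c s (g s k) i) * (if s ∈ A then vF i else pF i) := by
    funext g
    rw [hy]
    simp only [map_prod, map_sum, map_mul]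
    refine Finset.prod_congr rfl fun s _ => Finset.prod_congr rfl fun k _ =>
      Finset.sum_congr rfl fun i _ => ?_
    congr 1
    split_ifs <;> rfl
  have hJ : ∀ N, JetE (gens c e) pF (fun g => algebraMap ℂ (AlgebraicClosure ℂ) (y g)) N =
      D.JS A {pF} N N := by
    intro N
    rw [hyF, hO c e he A pF vF (fun s _ => hvF' s) hpF1 hpF2 N]
    ext z
    refine and_congr Iff.rfl (exists_congr fun a => and_congr ?_ Iff.rfl)
    exact forall₂_congr fun s hs => and_congr Iff.rfl (by rw [hDC s hs]; rfl)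
  have hTr : ∀ N, M.χ _ (D.JS A {pF} N N) = M.χ _ (D.JS A {0} N N) := by
    intro N
    rw [Trn.main D hLc A {pF} (constr_pt pF) (by
      rintro x rfl s hs
      exact hpF1 s hs) N N M, chi_pt, one_mul]
  have hmA : 0 < D.mul A := Prod.mul_pos D hA0
  refine ⟨p, hpG, hpε, y, χ, hχ, ?_, ?_, ?_, ?_⟩
  · -- `y ≠ 0`
    intro h0
    have h6 : ∀ s, ∃ j : κ s, ∑ i, c s j i * (if s ∈ A then v i else p i) ≠ 0 := by
      intro s
      by_contra h7
      push Not at h7
      by_cases hs : s ∈ A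
      · exact hvL s fun j => by
          have := h7 j
          simpa only [if_pos hs] using this
      · exact hp ⟨s, hs⟩ fun j => by
          have := h7 j
          simpa only [if_neg hs] using this
    choose j hj using h6
    have h7 := congrFun h0 fun s _ => j s
    exact (Finset.prod_ne_zero_iff.2 fun s _ => Finset.prod_ne_zero_iff.2 fun k _ => hj s) h7
  · -- there are jets
    refine ⟨D.mul A, hmA, ?_⟩
    rw [hJ]
    refine ⟨fun q => if (q.2 : ℕ) = 0 then pF q.1 else if (q.2 : ℕ) = 1 then vF q.1 else 0, ?_,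
      fun _ => 1, fun s hs => ⟨fun k hk => ?_, ?_⟩, ?_⟩
    · rw [Lev.jk_zero]
      funext i
      simp
    · have hk0 : k = 0 := Nat.lt_one_iff.1 hk
      subst hk0
      rw [Lev.jk_zero]
      have h6 : (fun i => if ((0 : _root_.Fin (D.mul A + 1)) : ℕ) = 0 then pF i else
        if ((0 : _root_.Fin (D.mul A + 1)) : ℕ) = 1 then vF i else 0) = pF := by
        funext i
        simp
      change (fun i => if ((0 : _root_.Fin (D.mul A + 1)) : ℕ) = 0 then pF i else
        if ((0 : _root_.Fin (D.mul A + 1)) : ℕ) = 1 then vF i else 0) ∈ D.L s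
      rw [h6]
      exact hpF1 s hs
    · rw [hDC s hs]
      refine ⟨1, one_ne_zero, ?_⟩
      rw [one_smul]
      have h6 : jk (fun q : σ × _root_.Fin (D.mul A + 1) => if (q.2 : ℕ) = 0 then pF q.1 else
        if (q.2 : ℕ) = 1 then vF q.1 else 0) 1 = vF := by
        funext i
        rw [Lev.jk_lt _ (by omega)]
        simp
      rw [h6, sub_self]
      exact (D.L s).zero_mem
    · exact Finset.sum_congr rfl fun s _ => Nat.mul_one _
  · have h6 : (∑ s ∈ A, e s) ≠ 0 := hmA.ne'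
    rw [Finsupp.single_eq_of_ne h6.symm]
  · intro N hN0
    obtain ⟨z, hz, h6⟩ := hN N hN0
    obtain ⟨Q, k, hQ⟩ := exists_poly z hz hLw
    rw [hJ]
    have h8 : (∑ M ∈ (Finsupp.single (∑ s ∈ A, e s) χ).support with M ∣ N,
        (Finsupp.single (∑ s ∈ A, e s) χ) M) = if D.mul A ∣ N then χ else 0 := by
      have h7 : D.mul A = ∑ s ∈ A, e s := rfl
      rw [Finsupp.support_single_ne_zero _ hχ, Finset.filter_singleton, h7]
      split_ifs
      · rw [Finset.sum_singleton, Finsupp.single_eq_same]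
      · rw [Finset.sum_empty]
    rw [h8]
    refine ⟨Polynomial.X ^ k * Polynomial.C (if D.mul A ∣ N then χ else 0) +
      (Polynomial.X - 1) * Q, k, by
        rw [Polynomial.eval_add, Polynomial.eval_mul, Polynomial.eval_mul, Polynomial.eval_sub,
          Polynomial.eval_pow, Polynomial.eval_X, Polynomial.eval_C, Polynomial.eval_one, one_pow,
          sub_self, zero_mul, one_mul, add_zero], ?_⟩
    rw [← hM, hTr, h6, ← hL, Polynomial.eval₂_add, Polynomial.eval₂_mul, Polynomial.eval₂_mul,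
      Polynomial.eval₂_sub, Polynomial.eval₂_X_pow, Polynomial.eval₂_C, Polynomial.eval₂_X,
      Polynomial.eval₂_one, ← hQ, Int.coe_castRingHom]
    ring

open Classical in
/-- **Q1 for products of powers of ideals of linear subspaces** -/
theorem q1 (hO1 : S_ORD1) (hO : S_ORD2) (hT : S_TRANS) (hP : S_PT) (hF : S_FORMS) (hC : S_CONG)
    {σ S : Type} [Fintype σ] [Fintype S] [DecidableEq S]
    {κ : S → Type} (c : (s : S) → κ s → σ → ℂ) (e : S → ℕ) (he : ∀ s, 0 < e s)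
    (hc : ∀ s, zeros (c s) ≠ ⊤) (s₀ : ℚ) :
    zetaJ (gens c e) ∈ ratRing ℂ {q : ℤ × ℤ | 0 < q.2 ∧ (q.1 : ℚ) / q.2 ≠ s₀} ∨
      ∀ ε : ℝ, 0 < ε → ∃ p : σ → ℂ, ‖p‖ < ε ∧
        ∃ (y : ((s : S) → _root_.Fin (e s) → κ s) → ℂ) (b : ℕ →₀ ℤ), MonZeta (gens c e) p y b ∧
          ∑ M ∈ b.support.filter (fun M : ℕ => ∃ k : ℤ, s₀ * (M : ℚ) = k), b M ≠ 0 := by
  by_cases h : ∃ A : Finset S, IrrSet (fun s => zeros (c s)) A ∧
      ((-((Fintype.card σ - Module.finrank ℂ (A.inf fun s => zeros (c s) : Submodule _ _)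
        : ℕ) : ℤ) : ℤ) : ℚ) / ((∑ s ∈ A, e s : ℕ) : ℤ) = s₀
  · right
    obtain ⟨A, hA, h1⟩ := h
    intro ε hε
    obtain ⟨p, -, hp, y, χ, hχ, hZ⟩ := mon hO hT hP hF hC c e he hc A hA ε hε
    refine ⟨p, hp, y, _, hZ, ?_⟩
    have hpos : 0 < ∑ s ∈ A, e s := Finset.sum_pos (fun s _ => he s) hA.1
    rw [Finsupp.support_single_ne_zero _ hχ, Finset.filter_singleton, if_pos,
      Finset.sum_singleton, Finsupp.single_eq_same]
    · exact hχ
    · refine ⟨-((Fintype.card σ - Module.finrank ℂ (A.inf fun s => zeros (c s) : Submodule _ _)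
        : ℕ) : ℤ), ?_⟩
      rw [← h1, Int.cast_natCast (∑ s ∈ A, e s), div_mul_cancel₀]
      exact_mod_cast hpos.ne'
  · left
    refine rat_mono (Lu ℂ) ?_ (rat hO1 hT c e he hc)
    rintro q ⟨A, hA, rfl⟩
    have hpos : 0 < ∑ s ∈ A, e s := Finset.sum_pos (fun s _ => he s) hA.1
    exact ⟨Int.natCast_pos.2 hpos, fun h1 => h ⟨A, hA, h1⟩⟩

end Fin

end Pool.Agent.D0H67.SUB
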