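import Pool.Agent.D0H67.SUB.Shift

/-! # Translation of the origin of the jet -/

set_option autoImplicit false
set_option linter.unusedSectionVars false
set_option linter.unusedVariables false

namespace Pool.Agent.D0H67.SUB.Trn

open MvPolynomial Pool.Agent.W428.MOT Pool.Agent.TH192.MT Pool.Agent.D0H67.SUB.Lev
  Pool.Agent.D0H67.SUB.Shift

section

variable {K : Type} [Field K] {σ S : Type}

/-- the jet with the origin `x` and the other coefficients `w` -/
def gl {N : ℕ} (x : Pt K σ) (w : Pt K (σ × Fin N)) : Pt K (σ × Fin (N + 1)) :=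
  fun p => Fin.cases (motive := fun _ => AlgebraicClosure K) (x p.1) (fun k => w (p.1, k)) p.2

theorem jk_gl_zero {N : ℕ} (x : Pt K σ) (w : Pt K (σ × Fin N)) : jk (gl x w) 0 = x := by
  rw [jk_zero]
  rfl

theorem jk_gl_pos {N : ℕ} (x y : Pt K σ) (w : Pt K (σ × Fin N)) {k : ℕ} (hk : 0 < k) :
    jk (gl x w) k = jk (gl y w) k := by
  obtain ⟨k, rfl⟩ := Nat.exists_eq_add_of_le' hk
  by_cases h : k + 1 < N + 1
  · funext i
    rw [jk_lt _ h, jk_lt _ h]
    rfl
  · rw [jk_ge _ h, jk_ge _ h]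

theorem gl_eta {N : ℕ} (z : Pt K (σ × Fin (N + 1))) :
    gl (fun i => z (i, 0)) (fun p => z (p.1, p.2.succ)) = z := by
  funext ⟨i, k⟩
  refine Fin.cases ?_ (fun k => ?_) k
  · rfl
  · rfl

theorem chi_zero {R : Type} [CommRing R] (M : Meas K R) [Fintype σ] :
    M.χ σ ({0} : Set (Pt K σ)) = 1 := by
  rw [← M.point (ι := Empty)]
  refine M.iso _ _ constr_z Constr.univ (fun _ i => i.elim) (fun _ _ => 0) (fun i => i.elim)
    (fun i => IsPF.zero.isRF _) (fun _ _ => trivial) (fun _ _ => rfl) ?_ ?_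
  · intro z hz
    exact (Set.mem_singleton_iff.1 hz).symm
  · intro w _
    funext i
    exact i.elim

variable [Fintype σ] [DecidableEq S] (D : Dat K σ S)

theorem gl_mem {A : Finset S} {V : Set (Pt K σ)} (hV : ∀ x ∈ V, ∀ s ∈ A, x ∈ D.L s) {m N : ℕ}
    {x : Pt K σ} (hx : x ∈ V) (w : Pt K (σ × Fin N)) :
    gl x w ∈ D.JS A V m N ↔ gl 0 w ∈ D.JS A {0} m N := by
  have key : ∀ {V V' : Set (Pt K σ)}, (∀ x ∈ V, ∀ s ∈ A, x ∈ D.L s) →
      (∀ x ∈ V', ∀ s ∈ A, x ∈ D.L s) → ∀ {x y : Pt K σ}, x ∈ V → y ∈ V' →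
      gl x w ∈ D.JS A V m N → gl y w ∈ D.JS A V' m N := by
    rintro V V' hV hV' x y hx hy ⟨h1, a, h2, h3⟩
    refine ⟨by rw [jk_gl_zero]; exact hy, a, fun s hs => ?_, h3⟩
    have hp : 0 < a s := by
      rcases Nat.eq_zero_or_pos (a s) with h4 | h4
      · have h5 := (h2 s hs).2
        rw [h4, jk_gl_zero] at h5
        exact absurd (hV x hx s hs) (D.dis s _ h5)
      · exact h4
    refine ⟨fun k hk => ?_, ?_⟩
    · rcases Nat.eq_zero_or_pos k with rfl | h4
      · rw [jk_gl_zero]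
        exact hV' y hy s hs
      · rw [jk_gl_pos y x w h4]
        exact (h2 s hs).1 k hk
    · rw [jk_gl_pos y x w hp]
      exact (h2 s hs).2
  have h0 : ∀ x ∈ ({0} : Set (Pt K σ)), ∀ s ∈ A, x ∈ D.L s := by
    rintro x rfl s _
    exact (D.L s).zero_mem
  exact ⟨key hV h0 hx rfl, key h0 hV rfl hx⟩

/-- the conditions for the other coefficients -/
def Y (A : Finset S) (m N : ℕ) : Set (Pt K (σ × Fin N)) := {w | gl 0 w ∈ D.JS A {0} m N}

theorem pf_gl {ι : Type} {N : ℕ} {x : Pt K ι → Pt K σ} {w : Pt K ι → Pt K (σ × Fin N)}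
    (hx : ∀ i, IsPF fun z => x z i) (hw : ∀ p, IsPF fun z => w z p) (p : σ × Fin (N + 1)) :
    IsPF fun z => gl (x z) (w z) p := by
  obtain ⟨i, k⟩ := p
  refine Fin.cases ?_ (fun k => ?_) k
  · exact hx i
  · exact hw (i, k)

theorem constr_Y (hL : ∀ s, Constr (D.L s : Set (Pt K σ))) (A : Finset S) (m N : ℕ) :
    Constr (Y D A m N) :=
  (constr_JS D hL A constr_z m N).preimage (fun w : Pt K (σ × Fin N) => gl 0 w)
    (pf_gl (fun i => IsPF.zero) fun p => IsPF.coord p)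

theorem prod (hL : ∀ s, Constr (D.L s : Set (Pt K σ))) (A : Finset S) {V : Set (Pt K σ)}
    (hVc : Constr V) (hV : ∀ x ∈ V, ∀ s ∈ A, x ∈ D.L s) (m N : ℕ) {R : Type} [CommRing R]
    (M : Meas K R) : M.χ _ (D.JS A V m N) = M.χ σ V * M.χ _ (Y D A m N) := by
  rw [← M.prod V _ hVc (constr_Y D hL A m N)]
  refine M.iso _ _ (constr_JS D hL A hVc m N) ?_
    (fun z => Sum.elim (fun i => z (i, 0)) fun p => z (p.1, p.2.succ))
    (fun z => gl (fun i => z (Sum.inl i)) fun p => z (Sum.inr p)) ?_ ?_ ?_ ?_ ?_ ?_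
  · exact Constr.and (hVc.preimage _ fun i => IsPF.coord _)
      ((constr_Y D hL A m N).preimage _ fun i => IsPF.coord _)
  · refine regularOn_poly (fun p => ?_) _
    rcases p with i | p
    · exact IsPF.coord _
    · exact IsPF.coord _
  · exact regularOn_poly (pf_gl (fun i => IsPF.coord _) fun p => IsPF.coord _) _
  · intro z hz
    have h1 : (fun i => z (i, 0)) ∈ V := by
      have := hz.1
      rwa [jk_zero] at this
    refine ⟨h1, ?_⟩
    change gl 0 (fun p => z (p.1, p.2.succ)) ∈ D.JS A {0} m N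
    rw [← gl_mem D hV h1, gl_eta]
    exact hz
  · rintro z ⟨h1, h2⟩
    change gl (fun i => z (Sum.inl i)) (fun p => z (Sum.inr p)) ∈ D.JS A V m N
    rw [gl_mem D hV h1]
    exact h2
  · intro z _
    exact gl_eta z
  · intro z _
    funext p
    rcases p with i | p
    · rfl
    · rfl

end

theorem main : S_TRN := by
  intro K _ σ S _ _ D hL A V hVc hV m N R _ M
  have h0 : ∀ x ∈ ({0} : Set (Pt K σ)), ∀ s ∈ A, x ∈ D.L s := by
    rintro x rfl s _
    exact (D.L s).zero_mem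
  rw [prod D hL A hVc hV, prod D hL A constr_z h0, chi_zero, one_mul]

end Pool.Agent.D0H67.SUB.Trn
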