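import Pool.Agent.W428.MOT.Defs
import Pool.Agent.W428.MOT.Tools
import Pool.Agent.TH192.MT.JDefs

/-!
# Products of powers of ideals of linear subspaces: jets and orders

`F = AlgebraicClosure K`, the points of the affine space are the `x : σ → F`. We fix linear subspaces
`L s` of `F ^ σ`, exponents `e s > 0`, and sets `C s` which are disjoint from `L s` and invariant under
the translations by `L s`.
-/

set_option autoImplicit false
set_option linter.unusedSectionVars false
set_option linter.unusedVariables false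

namespace Pool.Agent.D0H67.SUB

open MvPolynomial Pool.Agent.W428.MOT Pool.Agent.TH192.MT

/-- The coefficient of `t ^ k` of a jet (`0` for `k > N`). -/
def jk {F σ : Type} [Zero F] {N : ℕ} (z : σ × Fin (N + 1) → F) (k : ℕ) : σ → F :=
  fun i => if h : k < N + 1 then z (i, ⟨k, h⟩) else 0

/-- The data. -/
structure Dat (K : Type) [Field K] (σ S : Type) where
  L : S → Submodule (AlgebraicClosure K) (Pt K σ)
  C : S → Set (Pt K σ)
  e : S → ℕ
  cC : ∀ s, Constr (C s)
  he : ∀ s, 0 < e s
  dis : ∀ s, ∀ x ∈ C s, x ∉ L s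
  tr : ∀ s, ∀ x ∈ C s, ∀ y ∈ L s, x + y ∈ C s

namespace Dat

variable {K : Type} [Field K] {σ S : Type} [Fintype σ] [DecidableEq S] (D : Dat K σ S)

/-- The `N`-jets with `z_0 ∈ V` such that, for every `s ∈ A`, `z_k ∈ L s` for `k < a s`,
`z_(a s) ∈ C s`, and `∑_{s ∈ A} e s * a s = m`. -/
def JS (A : Finset S) (V : Set (Pt K σ)) (m N : ℕ) : Set (Pt K (σ × Fin (N + 1))) :=
  {z | jk z 0 ∈ V ∧ ∃ a : S → ℕ,
    (∀ s ∈ A, (∀ k < a s, jk z k ∈ D.L s) ∧ jk z (a s) ∈ D.C s) ∧ ∑ s ∈ A, D.e s * a s = m}

/-- The points of `L s`, `s ∈ B`, and of `C s`, `s ∈ A \ B`. -/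
def VV (A B : Finset S) : Set (Pt K σ) :=
  {u | (∀ s ∈ B, u ∈ D.L s) ∧ ∀ s ∈ A \ B, u ∈ D.C s}

/-- The series `∑ χ(JS A {0} N N) v ^ (n N) T ^ N`, `v = 1 / 𝕃`. -/
noncomputable def zs {R : Type} [CommRing R] (M : Meas K R) (v : R) (A : Finset S) :
    PowerSeries R :=
  PowerSeries.mk fun N => M.χ (σ × Fin (N + 1)) (D.JS A {0} N N) * v ^ (Fintype.card σ * N)

/-- The multiplicity of a set of indices. -/
def mul (A : Finset S) : ℕ := ∑ s ∈ A, D.e s

end Dat

/-! ### Arrangements of hyperplanes in a linear subspace -/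

/-- The points of `W` outside the hyperplanes `lam i = 0`, `i ∈ I`. -/
def cmp {K : Type} [Field K] {σ ι : Type} (W : Submodule (AlgebraicClosure K) (Pt K σ))
    (I : Finset ι) (lam : ι → (Pt K σ →ₗ[AlgebraicClosure K] AlgebraicClosure K)) :
    Set (Pt K σ) := {u | u ∈ W ∧ ∀ i ∈ I, lam i u ≠ 0}

/-- A connected family of forms on `W`: the forms are not zero on `W`, and `W` is never the sum of
the two subspaces of `W` where the forms of `J`, and those of `I \ J`, vanish. -/
def ConnF {F V ι : Type} [Field F] [AddCommGroup V] [Module F V] [DecidableEq ι]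
    (W : Submodule F V) (I : Finset ι) (lam : ι → (V →ₗ[F] F)) : Prop :=
  I.Nonempty ∧ (∀ i ∈ I, ∃ u ∈ W, lam i u ≠ 0) ∧
    ∀ J ⊆ I, J.Nonempty → (I \ J).Nonempty →
      (W ⊓ J.inf fun i => LinearMap.ker (lam i)) ⊔ (W ⊓ (I \ J).inf fun i => LinearMap.ker (lam i))
        ≠ W

/-! ### The ideals -/

section ideals

variable {K : Type} [Field K] {σ S : Type} [Fintype σ] [Fintype S]

/-- The linear form with the coefficients `c`. -/
noncomputable def form (c : σ → K) : MvPolynomial σ K := ∑ i, C (c i) * X i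

/-- The products of `e s` of the linear forms with the coefficients `c s j`, for each `s`: they
generate the ideal `∏ s, I(L s) ^ e s`. -/
noncomputable def gens {κ : S → Type} (c : (s : S) → κ s → σ → K) (e : S → ℕ)
    (g : (s : S) → Fin (e s) → κ s) : MvPolynomial σ K := ∏ s, ∏ k, form (c s (g s k))

/-- The linear subspace where the linear forms with the coefficients `c j` vanish. -/
noncomputable def zeros {κ : Type} (c : κ → σ → K) : Submodule K (σ → K) where
  carrier := {x | ∀ j, ∑ i, c j i * x i = 0}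
  zero_mem' := fun j => by simp
  add_mem' := fun {a b} ha hb j => by
    simp only [Pi.add_apply, mul_add, Finset.sum_add_distrib, ha j, hb j, add_zero]
  smul_mem' := fun r x hx j => by
    have h := hx j
    calc ∑ i, c j i * (r • x) i = r * ∑ i, c j i * x i := by
          rw [Finset.mul_sum]
          exact Finset.sum_congr rfl fun i _ => by
            simp only [Pi.smul_apply, smul_eq_mul]
            ring
      _ = 0 := by rw [h, mul_zero]

/-- The points over the algebraic closure of `zeros c`. -/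
noncomputable def zerosF {κ : Type} (c : κ → σ → K) : Submodule (AlgebraicClosure K) (Pt K σ) :=
  zeros fun j i => algebraMap K (AlgebraicClosure K) (c j i)

end ideals

/-- The `N`-jets `φ` with `φ(0) = p` such that all `f g (φ)` have order `≥ N` and the vector of the
coefficients of `t ^ N` is a non-zero multiple of `y`. -/
def JetE {K : Type} [Field K] {σ J : Type} (f : J → MvPolynomial σ K) (p : Pt K σ)
    (y : J → AlgebraicClosure K) (N : ℕ) : Set (Pt K (σ × Fin (N + 1))) :=
  {z | (∀ i, z (i, 0) = p i) ∧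
    (∀ g, ∀ k < N, PowerSeries.coeff k (aeval (ar z) (f g)) = 0) ∧
    ∃ c : AlgebraicClosure K, c ≠ 0 ∧ ∀ g, PowerSeries.coeff N (aeval (ar z) (f g)) = c * y g}

end Pool.Agent.D0H67.SUB
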