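import Pool.Agent.D0H67.SUB.Strat
import Pool.Agent.D0H67.SUB.Trn

/-! # The recursion -/

set_option autoImplicit false
set_option linter.unusedSectionVars false
set_option linter.unusedVariables false

namespace Pool.Agent.D0H67.SUB.Eng

open MvPolynomial Pool.Agent.W428.MOT Pool.Agent.TH192.MT Pool.Agent.D0H67.SUB.Lev
  Pool.Agent.D0H67.SUB.Shift Pool.Agent.D0H67.SUB.Trn Pool.Agent.D0H67.SUB.Strat

theorem empty_zero {K : Type} [Field K] {σ S : Type} [Fintype σ] [DecidableEq S]
    (D : Dat K σ S) : D.JS ∅ {0} 0 0 = {0} := by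
  ext z
  constructor
  · rintro ⟨h1, -⟩
    have h2 : jk z 0 = 0 := h1
    rw [jk_zero] at h2
    refine Set.mem_singleton_iff.2 (funext fun p => ?_)
    obtain ⟨i, k⟩ := p
    have hk : k = 0 := Fin.ext (by have := k.2; omega)
    rw [hk]
    exact congrFun h2 i
  · intro h
    rw [Set.mem_singleton_iff] at h
    subst h
    refine ⟨?_, fun _ => 0, fun s hs => absurd hs (Finset.notMem_empty s), Finset.sum_empty⟩
    rw [jk_zero]
    rfl

theorem empty_pos {K : Type} [Field K] {σ S : Type} [Fintype σ] [DecidableEq S]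
    (D : Dat K σ S) {N : ℕ} (hN : N ≠ 0) (V : Set (Pt K σ)) (N' : ℕ) : D.JS ∅ V N N' = ∅ := by
  rw [Set.eq_empty_iff_forall_notMem]
  rintro z ⟨-, a, -, h⟩
  rw [Finset.sum_empty] at h
  exact hN h.symm

theorem main : S_ENG := by
  intro K _ σ S _ _ D hL R _ M v hv
  refine ⟨?_, fun A => ?_⟩
  · ext N
    unfold Dat.zs
    rw [PowerSeries.coeff_mk, PowerSeries.coeff_one]
    split_ifs with h
    · subst h
      rw [empty_zero, chi_zero, Nat.mul_zero, pow_zero, mul_one]
    · rw [empty_pos D h, Pool.Agent.W375.MT.chi_empty, zero_mul]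
  · ext m
    rw [mul_assoc, PowerSeries.coeff_C_mul, PowerSeries.coeff_X_pow_mul']
    conv_lhs =>
      unfold Dat.zs
      rw [PowerSeries.coeff_mk]
    rw [← level D M v hv hL A constr_z (Nat.le_succ m)]
    change M.χ _ (D.JS A {0} m (m + 1)) * _ = _
    rw [Shift.main D hL A m m M]
    split_ifs with h
    · rw [Strat.main D hL A _ _ M, map_sum, Finset.mul_sum, Finset.sum_mul]
      refine Finset.sum_congr rfl fun B _ => ?_
      rw [Trn.main D hL B _ (constr_VV D hL A B) (fun x hx s hs => hx.1 s hs)]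
      rw [PowerSeries.coeff_C_mul]
      unfold Dat.zs
      rw [PowerSeries.coeff_mk, ← level D M v hv hL B constr_z (Nat.sub_le m (D.mul A)),
        Nat.mul_succ, pow_add]
      ring
    · rw [zero_mul, mul_zero]

end Pool.Agent.D0H67.SUB.Eng
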