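import Pool.Agent.D0H67.SUB.Base

/-! # Sets which are invariant under transversal subspaces -/

set_option autoImplicit false
set_option linter.unusedSectionVars false
set_option linter.unusedVariables false

namespace Pool.Agent.D0H67.SUB.Prodv

open MvPolynomial Pool.Agent.W428.MOT Pool.Agent.TH192.MT Pool.Agent.D0H67.SUB.Base

/-- the projection -/
theorem exists_proj {F V : Type} [Field F] [AddCommGroup V] [Module F V] (G1 G2 : Submodule F V)
    (h : G1 ⊔ G2 = ⊤) : ∃ P : V →ₗ[F] V, (∀ x, P (P x) = P x) ∧ (∀ x, x - P x ∈ G1) ∧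
      ∀ x, P x ∈ G2 := by
  obtain ⟨H, hH⟩ := (G1.comap G2.subtype).exists_isCompl
  set H' := H.map G2.subtype with hH'
  have hle : H' ≤ G2 := by
    rintro _ ⟨x, _, rfl⟩
    exact x.2
  have hc : IsCompl G1 H' := by
    constructor
    · rw [Submodule.disjoint_def]
      rintro x hx ⟨y, hy, rfl⟩
      have h1 : y ∈ G1.comap G2.subtype := hx
      have h2 := (Submodule.disjoint_def.1 hH.disjoint) y h1 hy
      rw [h2]
      rfl
    · rw [codisjoint_iff, eq_top_iff, ← h]
      refine sup_le le_sup_left ?_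
      intro x hx
      have h1 : (⟨x, hx⟩ : G2) ∈ G1.comap G2.subtype ⊔ H := by
        rw [hH.sup_eq_top]
        trivial
      obtain ⟨y, hy, z, hz, hyz⟩ := Submodule.mem_sup.1 h1
      refine Submodule.mem_sup.2 ⟨y, hy, z, ⟨z, hz, rfl⟩, ?_⟩
      have := congrArg Subtype.val hyz
      exact this
  refine ⟨H'.subtype.comp (H'.projectionOnto G1 hc.symm), fun x => ?_, fun x => ?_, fun x => ?_⟩
  · simp
  · change x - (H'.projectionOnto G1 hc.symm x : V) ∈ G1
    rw [← Submodule.projectionOnto_apply_eq_zero_iff hc.symm, map_sub,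
      Submodule.projectionOnto_apply_left, sub_self]
  · exact hle (Subtype.mem _)

theorem main : S_PRODV := by
  intro K _ _ σ _ R _ M G1 G2 U1 U2 hU1 hU2 hG h1 h2
  obtain ⟨P, hPP, hP1, hP2⟩ := exists_proj G1 G2 hG
  -- membership
  have m1 : ∀ x, P x ∈ U1 ↔ x ∈ U1 := by
    intro x
    constructor
    · intro h
      have := h1 _ h _ (hP1 x)
      rwa [add_sub_cancel] at this
    · intro h
      have := h1 _ h _ (G1.neg_mem (hP1 x))
      rwa [neg_sub, add_sub_cancel] at this
  have m2 : ∀ x, x - P x ∈ U2 ↔ x ∈ U2 := by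
    intro x
    constructor
    · intro h
      have := h2 _ h _ (hP2 x)
      rwa [sub_add_cancel] at this
    · intro h
      have := h2 _ h _ (G2.neg_mem (hP2 x))
      rwa [← sub_eq_add_neg] at this
  rw [← chi_univ M, ← M.prod U1 U2 hU1 hU2, ← M.prod (U1 ∩ U2) Set.univ (hU1.inter hU2)
    Constr.univ]
  -- the involution
  let a : Pt K (σ ⊕ σ) →ₗ[AlgebraicClosure K] Pt K σ :=
    LinearMap.funLeft (AlgebraicClosure K) (AlgebraicClosure K) Sum.inl
  let b : Pt K (σ ⊕ σ) →ₗ[AlgebraicClosure K] Pt K σ :=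
    LinearMap.funLeft (AlgebraicClosure K) (AlgebraicClosure K) Sum.inr
  let A : Pt K (σ ⊕ σ) →ₗ[AlgebraicClosure K] Pt K σ := P.comp a + b - P.comp b
  let B : Pt K (σ ⊕ σ) →ₗ[AlgebraicClosure K] Pt K σ := a - P.comp a + P.comp b
  let T : Pt K (σ ⊕ σ) → Pt K (σ ⊕ σ) := fun z => Sum.elim (A z) (B z)
  have hA : ∀ z, A z = P (a z) + b z - P (b z) := fun z => rfl
  have hB : ∀ z, B z = a z - P (a z) + P (b z) := fun z => rfl
  have haT : ∀ z, a (T z) = A z := fun z => rfl
  have hbT : ∀ z, b (T z) = B z := fun z => rfl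
  have hPA : ∀ z, P (A z) = P (a z) := by
    intro z
    rw [hA, map_sub, map_add, hPP, hPP]
    abel
  have hPB : ∀ z, P (B z) = P (b z) := by
    intro z
    rw [hB, map_add, map_sub, hPP, hPP]
    abel
  have hTT : ∀ z, T (T z) = z := by
    intro z
    have e1 : A (T z) = a z := by
      rw [hA, haT, hbT, hPA, hPB, hB]
      abel
    have e2 : B (T z) = b z := by
      rw [hB, haT, hbT, hPA, hPB, hA]
      abel
    change Sum.elim (A (T z)) (B (T z)) = z
    rw [e1, e2]
    funext i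
    rcases i with i | i
    · rfl
    · rfl
  have hreg : ∀ S, RegularOn S T := by
    intro S
    refine regularOn_poly (fun i => ?_) _
    rcases i with i | i
    · exact pf_map A i
    · exact pf_map B i
  have hmap : ∀ z, (A z ∈ U1 ∩ U2 ∧ B z ∈ (Set.univ : Set (Pt K σ))) ↔ (a z ∈ U1 ∧ b z ∈ U2) := by
    intro z
    have e1 : A z ∈ U1 ↔ a z ∈ U1 := by rw [← m1 (A z), hPA, m1]
    have e2 : A z ∈ U2 ↔ b z ∈ U2 := by
      rw [← m2 (A z), hPA, ← m2 (b z), hA]
      have : P (a z) + b z - P (b z) - P (a z) = b z - P (b z) := by abel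
      rw [this]
    rw [Set.mem_inter_iff, e1, e2]
    exact ⟨fun h => h.1, fun h => ⟨h, trivial⟩⟩
  refine M.iso _ _ ?_ ?_ T T (hreg _) (hreg _) ?_ ?_ (fun z _ => hTT z) (fun z _ => hTT z)
  · exact Constr.and (hU1.preimage _ fun i => IsPF.coord _) (hU2.preimage _ fun i => IsPF.coord _)
  · exact Constr.and ((hU1.inter hU2).preimage _ fun i => IsPF.coord _)
      (Constr.univ.preimage _ fun i => IsPF.coord _)
  · intro z hz
    exact (hmap z).2 hz
  · intro z hz
    have h3 : A (T z) ∈ U1 ∩ U2 ∧ B (T z) ∈ (Set.univ : Set (Pt K σ)) := by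
      have h4 : T (T z) = z := hTT z
      change a (T (T z)) ∈ U1 ∩ U2 ∧ b (T (T z)) ∈ (Set.univ : Set (Pt K σ))
      rw [h4]
      exact hz
    exact (hmap (T z)).1 h3

end Pool.Agent.D0H67.SUB.Prodv
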