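import Pool.Agent.D0H67.SUB.Eng
import Pool.Agent.D0H67.SUB.Prodv

/-! # Products -/

set_option autoImplicit false
set_option linter.unusedSectionVars false
set_option linter.unusedVariables false

namespace Pool.Agent.D0H67.SUB.Prod

open MvPolynomial Pool.Agent.W428.MOT Pool.Agent.TH192.MT Pool.Agent.D0H67.SUB.Base
  Pool.Agent.D0H67.SUB.Strat

section

variable {S : Type} [DecidableEq S]

theorem sum_pow {R : Type} [AddCommMonoid R] (A1 A2 : Finset S) (h : Disjoint A1 A2)
    (f : Finset S → R) : ∑ B ∈ (A1 ∪ A2).powerset, f B =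
      ∑ B ∈ A1.powerset ×ˢ A2.powerset, f (B.1 ∪ B.2) := by
  symm
  refine Finset.sum_nbij' (fun B => B.1 ∪ B.2) (fun B => (B ∩ A1, B ∩ A2)) ?_ ?_ ?_ ?_ ?_
  · rintro ⟨B1, B2⟩ hB
    rw [Finset.mem_product, Finset.mem_powerset, Finset.mem_powerset] at hB
    exact Finset.mem_powerset.2 (Finset.union_subset_union hB.1 hB.2)
  · intro B _
    rw [Finset.mem_product, Finset.mem_powerset, Finset.mem_powerset]
    exact ⟨Finset.inter_subset_right, Finset.inter_subset_right⟩
  · rintro ⟨B1, B2⟩ hB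
    rw [Finset.mem_product, Finset.mem_powerset, Finset.mem_powerset] at hB
    obtain ⟨h1, h2⟩ := hB
    have h3 : B2 ∩ A1 = ∅ := by
      rw [← Finset.disjoint_iff_inter_eq_empty]
      exact (h.mono_right h2).symm
    have h4 : B1 ∩ A2 = ∅ := by
      rw [← Finset.disjoint_iff_inter_eq_empty]
      exact h.mono_left h1
    refine Prod.ext ?_ ?_
    · change (B1 ∪ B2) ∩ A1 = B1
      rw [Finset.union_inter_distrib_right, h3, Finset.union_empty, Finset.inter_eq_left]
      exact h1
    · change (B1 ∪ B2) ∩ A2 = B2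
      rw [Finset.union_inter_distrib_right, h4, Finset.empty_union, Finset.inter_eq_left]
      exact h2
  · intro B hB
    rw [Finset.mem_powerset] at hB
    change B ∩ A1 ∪ B ∩ A2 = B
    rw [← Finset.inter_union_distrib_left, Finset.inter_eq_left]
    exact hB
  · intro B _
    rfl

theorem sdiff_union (A1 A2 B1 B2 : Finset S) (h : Disjoint A1 A2) (h1 : B1 ⊆ A1) (h2 : B2 ⊆ A2) :
    (A1 ∪ A2) \ (B1 ∪ B2) = (A1 \ B1) ∪ (A2 \ B2) := by
  ext s
  simp only [Finset.mem_sdiff, Finset.mem_union]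
  have h3 : s ∈ A1 → s ∉ A2 := fun h4 => Finset.disjoint_left.1 h h4
  have h4 := @h1 s
  have h5 := @h2 s
  tauto

end

section

variable {K : Type} [Field K] {σ S : Type} [Fintype σ] [DecidableEq S] (D : Dat K σ S)

theorem VV_union (A1 A2 B1 B2 : Finset S) (h : Disjoint A1 A2) (h1 : B1 ⊆ A1) (h2 : B2 ⊆ A2) :
    D.VV (A1 ∪ A2) (B1 ∪ B2) = D.VV A1 B1 ∩ D.VV A2 B2 := by
  ext u
  simp only [Dat.VV, sdiff_union A1 A2 B1 B2 h h1 h2, Set.mem_inter_iff, Set.mem_ofPred_eq,
    Finset.mem_union]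
  constructor
  · rintro ⟨h3, h4⟩
    exact ⟨⟨fun s hs => h3 s (Or.inl hs), fun s hs => h4 s (Or.inl hs)⟩,
      ⟨fun s hs => h3 s (Or.inr hs), fun s hs => h4 s (Or.inr hs)⟩⟩
  · rintro ⟨⟨h3, h4⟩, h5, h6⟩
    exact ⟨fun s hs => hs.elim (h3 s) (h5 s), fun s hs => hs.elim (h4 s) (h6 s)⟩

theorem VV_inv {A B : Finset S} (hB : B ⊆ A) {x y : Pt K σ} (hx : x ∈ D.VV A B)
    (hy : y ∈ A.inf D.L) : x + y ∈ D.VV A B := by
  have h1 : ∀ s ∈ A, y ∈ D.L s := fun s hs => Finset.inf_le (f := D.L) hs hy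
  exact ⟨fun s hs => (D.L s).add_mem (hx.1 s hs) (h1 s (hB hs)),
    fun s hs => D.tr s x (hx.2 s hs) y (h1 s (Finset.mem_sdiff.1 hs).1)⟩

theorem mul_union {A1 A2 : Finset S} (h : Disjoint A1 A2) :
    D.mul (A1 ∪ A2) = D.mul A1 + D.mul A2 := Finset.sum_union h

theorem mul_pos {A : Finset S} (h : A.Nonempty) : 0 < D.mul A :=
  Finset.sum_pos (fun s _ => D.he s) h

theorem chi_VV [IsAlgClosed K] {R : Type} [CommRing R] (M : Meas K R) (v : R)
    (hv : M.L * v = 1) {A1 A2 B1 B2 : Finset S} (h : Disjoint A1 A2) (h1 : B1 ⊆ A1)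
    (h2 : B2 ⊆ A2) (hG : A1.inf D.L ⊔ A2.inf D.L = ⊤) :
    M.χ σ (D.VV (A1 ∪ A2) (B1 ∪ B2)) =
      v ^ Fintype.card σ * (M.χ σ (D.VV A1 B1) * M.χ σ (D.VV A2 B2)) := by
  have hL : ∀ s, Constr (D.L s : Set (Pt K σ)) := fun s => constr_sub (D.L s)
  rw [Prodv.main M _ _ _ _ (constr_VV D hL A1 B1) (constr_VV D hL A2 B2) hG
    (fun x hx y hy => VV_inv D h1 hx hy) (fun x hx y hy => VV_inv D h2 hx hy),
    ← VV_union D A1 A2 B1 B2 h h1 h2]
  have h3 : M.L ^ Fintype.card σ * v ^ Fintype.card σ = 1 := by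
    rw [← mul_pow, hv, one_pow]
  linear_combination (- M.χ σ (D.VV (A1 ∪ A2) (B1 ∪ B2))) * h3

end

theorem solve {R : Type} [CommRing R] (c : R) {m : ℕ} (hm : 0 < m) (x : PowerSeries R)
    (h : x = PowerSeries.C c * PowerSeries.X ^ m * x) : x = 0 := by
  have h1 : IsUnit (1 - PowerSeries.C c * PowerSeries.X ^ m : PowerSeries R) := by
    rw [PowerSeries.isUnit_iff_constantCoeff]
    simp [hm.ne']
  have h2 : (1 - PowerSeries.C c * PowerSeries.X ^ m) * x = 0 := by
    linear_combination h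
  exact (h1.mul_right_eq_zero).1 h2

theorem main : S_PROD := by
  intro K _ _ σ S _ _ D R _ M v hv
  have hL : ∀ s, Constr (D.L s : Set (Pt K σ)) := fun s => constr_sub (D.L s)
  have hE := Eng.main D hL M v hv
  have key : ∀ (n : ℕ) (A1 A2 : Finset S), (A1 ∪ A2).card = n → Disjoint A1 A2 →
      A1.inf D.L ⊔ A2.inf D.L = ⊤ → D.zs M v (A1 ∪ A2) = D.zs M v A1 * D.zs M v A2 := by
    intro n
    induction n using Nat.strong_induction_on with
    | _ n ih =>
      intro A1 A2 hn h hG
      by_cases h0 : (A1 ∪ A2).Nonempty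
      swap
      · rw [Finset.not_nonempty_iff_eq_empty, Finset.union_eq_empty] at h0
        rw [h0.1, h0.2, Finset.union_empty, hE.1, one_mul]
      · set f : Finset S × Finset S → PowerSeries R := fun B =>
          PowerSeries.C (M.χ σ (D.VV (A1 ∪ A2) (B.1 ∪ B.2))) * (D.zs M v (B.1 ∪ B.2) -
            D.zs M v B.1 * D.zs M v B.2) with hf
        have h1 : D.zs M v (A1 ∪ A2) - D.zs M v A1 * D.zs M v A2 =
            PowerSeries.C (v ^ Fintype.card σ) * PowerSeries.X ^ D.mul (A1 ∪ A2) *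
              ∑ B ∈ A1.powerset ×ˢ A2.powerset, f B := by
          conv_lhs => rw [hE.2 (A1 ∪ A2), hE.2 A1, hE.2 A2]
          rw [sum_pow A1 A2 h]
          have h2 : (PowerSeries.C (v ^ Fintype.card σ) * PowerSeries.X ^ D.mul A1 *
              ∑ B ∈ A1.powerset, PowerSeries.C (M.χ σ (D.VV A1 B)) * D.zs M v B) *
              (PowerSeries.C (v ^ Fintype.card σ) * PowerSeries.X ^ D.mul A2 *
              ∑ B ∈ A2.powerset, PowerSeries.C (M.χ σ (D.VV A2 B)) * D.zs M v B) =
              PowerSeries.C (v ^ Fintype.card σ) * PowerSeries.X ^ D.mul (A1 ∪ A2) *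
              ∑ B ∈ A1.powerset ×ˢ A2.powerset,
                PowerSeries.C (M.χ σ (D.VV (A1 ∪ A2) (B.1 ∪ B.2))) *
                  (D.zs M v B.1 * D.zs M v B.2) := by
            rw [mul_union D h, pow_add, mul_mul_mul_comm, Finset.sum_mul_sum,
              ← Finset.sum_product']
            have h3 : ∀ B ∈ A1.powerset ×ˢ A2.powerset,
                PowerSeries.C (M.χ σ (D.VV (A1 ∪ A2) (B.1 ∪ B.2))) *
                  (D.zs M v B.1 * D.zs M v B.2) = PowerSeries.C (v ^ Fintype.card σ) *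
                (PowerSeries.C (M.χ σ (D.VV A1 B.1)) * D.zs M v B.1 *
                  (PowerSeries.C (M.χ σ (D.VV A2 B.2)) * D.zs M v B.2)) := by
              rintro ⟨B1, B2⟩ hB
              rw [Finset.mem_product, Finset.mem_powerset, Finset.mem_powerset] at hB
              rw [chi_VV D M v hv h hB.1 hB.2 hG, map_mul, map_mul]
              ring
            rw [Finset.sum_congr rfl h3, ← Finset.mul_sum]
            ring
          rw [h2, ← mul_sub, ← Finset.sum_sub_distrib]
          congr 1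
          refine Finset.sum_congr rfl fun B _ => ?_
          exact (mul_sub _ _ _).symm
        have h2 : ∑ B ∈ A1.powerset ×ˢ A2.powerset, f B = f (A1, A2) := by
          refine Finset.sum_eq_single_of_mem _ ?_ ?_
          · rw [Finset.mem_product, Finset.mem_powerset, Finset.mem_powerset]
            exact ⟨Finset.Subset.refl _, Finset.Subset.refl _⟩
          · rintro ⟨B1, B2⟩ hB hne
            rw [Finset.mem_product, Finset.mem_powerset, Finset.mem_powerset] at hB
            obtain ⟨hB1, hB2⟩ := hB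
            have hB1 : B1 ⊆ A1 := hB1
            have hB2 : B2 ⊆ A2 := hB2
            have h3 : (B1 ∪ B2).card < n := by
              rw [← hn]
              refine Finset.card_lt_card (Finset.ssubset_iff_subset_ne.2
                ⟨Finset.union_subset_union hB1 hB2, fun h4 => hne ?_⟩)
              refine Prod.ext (Finset.Subset.antisymm hB1 fun s hs => ?_)
                (Finset.Subset.antisymm hB2 fun s hs => ?_)
              · have h5 : s ∈ B1 ∪ B2 := h4 ▸ Finset.mem_union_left _ hs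
                rcases Finset.mem_union.1 h5 with h6 | h6
                · exact h6
                · exact absurd (hB2 h6) (Finset.disjoint_left.1 h hs)
              · have h5 : s ∈ B1 ∪ B2 := h4 ▸ Finset.mem_union_right _ hs
                rcases Finset.mem_union.1 h5 with h6 | h6
                · exact absurd hs (Finset.disjoint_left.1 h (hB1 h6))
                · exact h6
            change PowerSeries.C (M.χ σ (D.VV (A1 ∪ A2) (B1 ∪ B2))) * (D.zs M v (B1 ∪ B2) -
              D.zs M v B1 * D.zs M v B2) = 0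
            rw [ih _ h3 B1 B2 rfl (h.mono hB1 hB2) ?_, sub_self, mul_zero]
            rw [eq_top_iff, ← hG]
            exact sup_le_sup (Finset.inf_mono hB1) (Finset.inf_mono hB2)
        rw [h2] at h1
        have h3 : D.zs M v (A1 ∪ A2) - D.zs M v A1 * D.zs M v A2 =
            PowerSeries.C (v ^ Fintype.card σ * M.χ σ (D.VV (A1 ∪ A2) (A1 ∪ A2))) *
              PowerSeries.X ^ D.mul (A1 ∪ A2) *
              (D.zs M v (A1 ∪ A2) - D.zs M v A1 * D.zs M v A2) := by
          conv_lhs => rw [h1]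
          rw [map_mul, hf]
          ring
        exact sub_eq_zero.1 (solve _ (mul_pos D h0) _ h3)
  intro A1 A2 h hG
  exact key _ A1 A2 rfl h hG

end Pool.Agent.D0H67.SUB.Prod
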