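import Pool.Agent.D0H67.SUB.Prod
import Pool.Agent.TH192.MT.Rec

/-! # Rationality -/

set_option autoImplicit false
set_option linter.unusedSectionVars false
set_option linter.unusedVariables false

namespace Pool.Agent.D0H67.SUB.Rat

open MvPolynomial Pool.Agent.W428.MOT Pool.Agent.TH192.MT Pool.Agent.TH192.DT
  Pool.Agent.D0H67.SUB.Base Pool.Agent.D0H67.SUB.Strat Pool.Agent.D0H67.SUB.Prod

/-- The pairs. -/
def DD {K : Type} [Field K] {σ S : Type} [Fintype σ] [DecidableEq S] (D : Dat K σ S) :
    Set (ℤ × ℤ) := {q : ℤ × ℤ | ∃ B : Finset S, IrrSet D.L B ∧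
        q = (-((Fintype.card σ - Module.finrank (AlgebraicClosure K) (B.inf D.L : Submodule _ _)
          : ℕ) : ℤ), (D.mul B : ℤ))}

theorem VV_self {K : Type} [Field K] {σ S : Type} [Fintype σ] [DecidableEq S] (D : Dat K σ S)
    (A : Finset S) : D.VV A A = ((A.inf D.L : Submodule _ _) : Set (Pt K σ)) := by
  ext u
  simp only [Dat.VV, Finset.sdiff_self, Finset.notMem_empty, false_imp_iff, implies_true,
    and_true, Set.mem_ofPred_eq, SetLike.mem_coe, Submodule.mem_finsetInf]

theorem main : S_RAT := by
  intro K _ _ σ S _ _ D hT hC R _ M u hu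
  set v : R := ((u⁻¹ : Rˣ) : R) with hvdef
  have hv : M.L * v = 1 := by rw [hu, hvdef, Units.mul_inv]
  have hL : ∀ s, Constr (D.L s : Set (Pt K σ)) := fun s => constr_sub (D.L s)
  have hE := Eng.main D hL M v hv
  change ∀ A : Finset S, (∀ s, A.inf D.L ≤ D.L s → s ∈ A) → D.zs M v A ∈ ratU u (DD D)
  have key : ∀ (n : ℕ) (A : Finset S), A.card = n → (∀ s, A.inf D.L ≤ D.L s → s ∈ A) →
      D.zs M v A ∈ ratU u (DD D) := by
    intro n
    induction n using Nat.strong_induction_on with
    | _ n ih =>
      intro A hn hcl
      by_cases h0 : A.Nonempty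
      swap
      · rw [Finset.not_nonempty_iff_eq_empty.1 h0, hE.1]
        exact Subalgebra.one_mem _
      · by_cases hI : ∀ A1 A2 : Finset S, A1.Nonempty → A2.Nonempty → Disjoint A1 A2 →
            A1 ∪ A2 = A → A1.inf D.L ⊔ A2.inf D.L ≠ ⊤
        · -- irreducible
          have hIrr : IrrSet D.L A := ⟨h0, hcl, hI⟩
          set d := Module.finrank (AlgebraicClosure K) (A.inf D.L : Submodule _ _) with hd
          have hdn : d ≤ Fintype.card σ := by
            have h1 := Submodule.finrank_le (A.inf D.L : Submodule (AlgebraicClosure K) (Pt K σ))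
            rwa [Module.finrank_fintype_fun_eq_card] at h1
          refine geo_solve u (mul_pos D h0) (D := DD D) (ν := Fintype.card σ - d)
            ⟨A, hIrr, rfl⟩ _ (PowerSeries.C (v ^ Fintype.card σ) * PowerSeries.X ^ D.mul A *
              ∑ B ∈ A.powerset.erase A, PowerSeries.C (M.χ σ (D.VV A B)) * D.zs M v B) ?_ ?_
          · refine Subalgebra.mul_mem _ (Subalgebra.mul_mem _ (rat_C u _)
              (Subalgebra.pow_mem _ (rat_X u) _)) (Subalgebra.sum_mem _ fun B hB => ?_)
            rw [Finset.mem_erase, Finset.mem_powerset] at hB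
            by_cases hV : (D.VV A B).Nonempty
            · refine Subalgebra.mul_mem _ (rat_C u _) ?_
              refine ih B.card ?_ B rfl ?_
              · rw [← hn]
                exact Finset.card_lt_card (Finset.ssubset_iff_subset_ne.2 ⟨hB.2, hB.1⟩)
              · obtain ⟨x, hx1, hx2⟩ := hV
                intro s hs
                have h1 : s ∈ A := hcl s ((Finset.inf_mono hB.2).trans hs)
                by_contra h2
                have h3 : x ∈ B.inf D.L := by
                  rw [Submodule.mem_finsetInf]
                  exact hx1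
                exact D.dis s x (hx2 s (Finset.mem_sdiff.2 ⟨h1, h2⟩)) (hs h3)
            · rw [Set.not_nonempty_iff_eq_empty] at hV
              rw [hV, Pool.Agent.W375.MT.chi_empty, map_zero, zero_mul]
              exact Subalgebra.zero_mem _
          · conv_lhs => rw [hE.2 A]
            have h1 : A ∈ A.powerset := Finset.mem_powerset.2 (Finset.Subset.refl A)
            rw [← Finset.sum_erase_add _ _ h1, VV_self, (cls (A.inf D.L)).2 M, ← hd, mul_add]
            congr 1
            have h2 : v ^ Fintype.card σ * M.L ^ d = v ^ (Fintype.card σ - d) := by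
              have h3 : Fintype.card σ = (Fintype.card σ - d) + d := by omega
              conv_lhs => rw [h3, pow_add]
              have h4 : v ^ d * M.L ^ d = 1 := by
                rw [← mul_pow, mul_comm v, hv, one_pow]
              rw [mul_assoc, h4, mul_one]
            rw [← h2, map_mul]
            ring
        · -- reducible
          push Not at hI
          obtain ⟨A1, A2, hA1, hA2, hd, hU, hG⟩ := hI
          rw [← hU, Prod.main D M v hv A1 A2 hd hG]
          have key2 : ∀ B1 B2 : Finset S, B1.Nonempty → B2.Nonempty → Disjoint B1 B2 →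
              B1 ∪ B2 = A → B1.inf D.L ⊔ B2.inf D.L = ⊤ → D.zs M v B1 ∈ ratU u (DD D) := by
            intro B1 B2 hB1 hB2 hd hU hG
            refine ih B1.card ?_ B1 rfl fun s hs => ?_
            · rw [← hn, ← hU, Finset.card_union_of_disjoint hd]
              have := hB2.card_pos
              omega
            · have h1 : s ∈ A := hcl s (by
                rw [← hU]
                exact (Finset.inf_mono Finset.subset_union_left).trans hs)
              rw [← hU, Finset.mem_union] at h1
              rcases h1 with h1 | h1
              · exact h1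
              · exfalso
                apply hT s
                rw [eq_top_iff, ← hG]
                exact sup_le hs (Finset.inf_le h1)
          exact Subalgebra.mul_mem _ (key2 A1 A2 hA1 hA2 hd hU hG)
            (key2 A2 A1 hA2 hA1 hd.symm (by rw [Finset.union_comm, hU]) (by rw [sup_comm, hG]))
  intro A hA
  exact key _ A rfl hA

end Pool.Agent.D0H67.SUB.Rat
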