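import Pool.Agent.D0H67.SUB.Lev
import Pool.Agent.W375.MT.Jet

/-! # Division by `t` -/

set_option autoImplicit false
set_option linter.unusedSectionVars false
set_option linter.unusedVariables false

namespace Pool.Agent.D0H67.SUB.Shift

open MvPolynomial Pool.Agent.W428.MOT Pool.Agent.TH192.MT Pool.Agent.D0H67.SUB.Lev

section

variable {K : Type} [Field K] {σ S : Type}

/-- division by `t` -/
def sh {N : ℕ} (z : Pt K (σ × Fin (N + 1 + 1))) : Pt K (σ × Fin (N + 1)) :=
  fun p => z (p.1, p.2.succ)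

/-- multiplication by `t` -/
noncomputable def mt {N : ℕ} (w : Pt K (σ × Fin (N + 1))) : Pt K (σ × Fin (N + 1 + 1)) :=
  fun p => Fin.cases (motive := fun _ => AlgebraicClosure K) 0 (fun k => w (p.1, k)) p.2

theorem jk_sh {N : ℕ} (z : Pt K (σ × Fin (N + 1 + 1))) (k : ℕ) : jk (sh z) k = jk z (k + 1) := by
  by_cases h : k < N + 1
  · funext i
    rw [jk_lt _ h, jk_lt _ (by omega)]
    rfl
  · rw [jk_ge _ h, jk_ge _ (by omega)]

theorem sh_mt {N : ℕ} (w : Pt K (σ × Fin (N + 1))) : sh (mt w) = w := rfl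

theorem jk_mt {N : ℕ} (w : Pt K (σ × Fin (N + 1))) (k : ℕ) : jk (mt w) (k + 1) = jk w k := by
  rw [← jk_sh, sh_mt]

theorem jk_mt_zero {N : ℕ} (w : Pt K (σ × Fin (N + 1))) : jk (mt w) 0 = 0 := by
  rw [jk_zero]
  rfl

theorem mt_sh {N : ℕ} (z : Pt K (σ × Fin (N + 1 + 1))) (h : jk z 0 = 0) : mt (sh z) = z := by
  funext ⟨i, k⟩
  refine Fin.cases ?_ (fun k => ?_) k
  · rw [jk_zero] at h
    exact (congrFun h i).symm
  · rfl

theorem pf_mt {N : ℕ} (p : σ × Fin (N + 1 + 1)) : IsPF fun w : Pt K (σ × Fin (N + 1)) => mt w p := by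
  obtain ⟨i, k⟩ := p
  refine Fin.cases ?_ (fun k => ?_) k
  · exact IsPF.zero
  · exact IsPF.coord _

variable [Fintype σ] [DecidableEq S] (D : Dat K σ S)

/-- the orders are positive -/
theorem pos {A : Finset S} {N : ℕ} {z : Pt K (σ × Fin (N + 1))} (h0 : jk z 0 = 0) {a : S → ℕ}
    {s : S} (h : jk z (a s) ∈ D.C s) : 0 < a s := by
  rcases Nat.eq_zero_or_pos (a s) with h1 | h1
  · rw [h1, h0] at h
    exact absurd (D.L s).zero_mem (D.dis s _ h)
  · exact h1

theorem sum_succ (A : Finset S) (a : S → ℕ) :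
    ∑ s ∈ A, D.e s * (a s + 1) = ∑ s ∈ A, D.e s * a s + D.mul A := by
  unfold Dat.mul
  rw [← Finset.sum_add_distrib]
  exact Finset.sum_congr rfl fun s _ => by ring

theorem mem_mt {A : Finset S} {m N : ℕ} (w : Pt K (σ × Fin (N + 1))) :
    mt w ∈ D.JS A {0} m (N + 1) ↔ D.mul A ≤ m ∧ w ∈ D.JS A Set.univ (m - D.mul A) N := by
  constructor
  · rintro ⟨h0, a, h1, h2⟩
    have h0' : jk (mt w) 0 = 0 := h0
    have hp : ∀ s ∈ A, 0 < a s := fun s hs => pos (A := A) D h0' (h1 s hs).2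
    have h3 : ∑ s ∈ A, D.e s * (a s - 1 + 1) = m := by
      rw [← h2]
      refine Finset.sum_congr rfl fun s hs => ?_
      rw [Nat.sub_add_cancel (hp s hs)]
    rw [sum_succ D A fun s => a s - 1] at h3
    refine ⟨by omega, trivial, fun s => a s - 1, fun s hs => ⟨fun k hk => ?_, ?_⟩, ?_⟩
    · have hk' : k < a s - 1 := hk
      rw [← jk_mt]
      exact (h1 s hs).1 _ (by omega)
    · rw [← jk_mt, Nat.sub_add_cancel (hp s hs)]
      exact (h1 s hs).2
    · change ∑ s ∈ A, D.e s * (a s - 1) = _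
      omega
  · rintro ⟨h, -, a, h1, h2⟩
    refine ⟨jk_mt_zero w, fun s => a s + 1, fun s hs => ⟨fun k hk => ?_, ?_⟩, ?_⟩
    · rcases Nat.eq_zero_or_pos k with rfl | hk'
      · rw [jk_mt_zero]
        exact (D.L s).zero_mem
      · obtain ⟨k, rfl⟩ := Nat.exists_eq_add_of_le' hk'
        rw [jk_mt]
        have hk'' : k + 1 < a s + 1 := hk
        exact (h1 s hs).1 k (by omega)
    · change jk (mt w) (a s + 1) ∈ D.C s
      rw [jk_mt]
      exact (h1 s hs).2
    · rw [sum_succ D A a]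
      omega

end

theorem constr_z {K : Type} [Field K] {σ : Type} [Fintype σ] :
    Constr ({0} : Set (Pt K σ)) := by
  have h : ({0} : Set (Pt K σ)) = {z | ∀ i, z i = 0} := by
    ext z
    exact funext_iff
  rw [h]
  exact Constr.all fun i => Constr.eqz (IsPF.coord i)

theorem main : S_SHIFT := by
  intro K _ σ S _ _ D hL A m N R _ M
  split_ifs with h
  · refine M.iso _ _ (constr_JS D hL A ?_ _ _) (constr_JS D hL A Constr.univ _ _) sh mt
      (regularOn_poly (fun p => IsPF.coord _) _) (regularOn_poly pf_mt _) ?_ ?_ ?_ ?_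
    · exact constr_z
    · intro z hz
      have h1 : mt (sh z) = z := mt_sh z hz.1
      rw [← h1, mem_mt] at hz
      exact hz.2
    · intro w hw
      rw [mem_mt]
      exact ⟨h, hw⟩
    · intro z hz
      exact mt_sh z hz.1
    · intro w hw
      exact sh_mt w
  · have h1 : D.JS A {0} m (N + 1) = ∅ := by
      rw [Set.eq_empty_iff_forall_notMem]
      intro z hz
      have h1 : mt (sh z) = z := mt_sh z hz.1
      rw [← h1, mem_mt] at hz
      exact h hz.1
    rw [h1, Pool.Agent.W375.MT.chi_empty]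

end Pool.Agent.D0H67.SUB.Shift
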