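import Pool.Agent.D0H67.SUB.Shift

/-! # Stratification by the origin of the jet -/

set_option autoImplicit false
set_option linter.unusedSectionVars false
set_option linter.unusedVariables false

namespace Pool.Agent.D0H67.SUB.Strat

open MvPolynomial Pool.Agent.W428.MOT Pool.Agent.TH192.MT Pool.Agent.D0H67.SUB.Lev

section

variable {K : Type} [Field K] {σ S : Type} [Fintype σ] [DecidableEq S] (D : Dat K σ S)

theorem constr_VV (hL : ∀ s, Constr (D.L s : Set (Pt K σ))) (A B : Finset S) :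
    Constr (D.VV A B) := by
  refine Constr.and ?_ ?_
  · exact Constr.ballFinset B fun s _ => hL s
  · exact Constr.ballFinset (A \ B) fun s _ => D.cC s

/-- the order is `0` or positive -/
theorem zero_iff {N : ℕ} {z : Pt K (σ × Fin (N + 1))} {s : S} {a : ℕ}
    (h : (∀ k < a, jk z k ∈ D.L s) ∧ jk z a ∈ D.C s) : a = 0 ↔ jk z 0 ∉ D.L s := by
  constructor
  · rintro rfl
    exact D.dis s _ h.2
  · intro h1
    by_contra h2
    exact h1 (h.1 0 (Nat.pos_of_ne_zero h2))

theorem strat_eq (A : Finset S) (m N : ℕ) :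
    D.JS A Set.univ m N = ⋃ B ∈ A.powerset, D.JS B (D.VV A B) m N := by
  classical
  ext z
  simp only [Set.mem_iUnion, exists_prop, Finset.mem_powerset]
  constructor
  · rintro ⟨-, a, h1, h2⟩
    refine ⟨A.filter fun s => jk z 0 ∈ D.L s, Finset.filter_subset _ _, ⟨?_, ?_⟩, a, ?_, ?_⟩
    · intro s hs
      exact (Finset.mem_filter.1 hs).2
    · intro s hs
      rw [Finset.mem_sdiff, Finset.mem_filter, not_and] at hs
      have h3 := (zero_iff D (h1 s hs.1)).2 (hs.2 hs.1)
      have h4 := (h1 s hs.1).2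
      rwa [h3] at h4
    · intro s hs
      exact h1 s (Finset.mem_filter.1 hs).1
    · rw [← h2]
      refine Finset.sum_subset (Finset.filter_subset _ _) fun s hs hs' => ?_
      rw [Finset.mem_filter, not_and] at hs'
      rw [(zero_iff D (h1 s hs)).2 (hs' hs), Nat.mul_zero]
  · rintro ⟨B, hB, ⟨h1, h2⟩, a, h3, h4⟩
    refine ⟨trivial, fun s => if s ∈ B then a s else 0, fun s hs => ?_, ?_⟩
    · by_cases h : s ∈ B
      · simp only [if_pos h]
        exact h3 s h
      · simp only [if_neg h]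
        exact ⟨fun k hk => absurd hk (Nat.not_lt_zero k), h2 s (Finset.mem_sdiff.2 ⟨hs, h⟩)⟩
    · rw [← h4, ← Finset.sum_subset hB fun s hs hs' => by simp only [if_neg hs', Nat.mul_zero]]
      exact Finset.sum_congr rfl fun s hs => by simp only [if_pos hs]

theorem VV_disj {A B B' : Finset S} (hB : B ⊆ A) (hB' : B' ⊆ A) {u : Pt K σ}
    (h : u ∈ D.VV A B) (h' : u ∈ D.VV A B') : B = B' := by
  have key : ∀ {B B' : Finset S}, B ⊆ A → u ∈ D.VV A B → u ∈ D.VV A B' → B ⊆ B' := by
    intro B B' hB h h' s hs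
    by_contra h1
    exact D.dis s u (h'.2 s (Finset.mem_sdiff.2 ⟨hB hs, h1⟩)) (h.1 s hs)
  exact Finset.Subset.antisymm (key hB h h') (key hB' h' h)

end

theorem main : S_STRAT := by
  intro K _ σ S _ _ D hL A m N R _ M
  rw [strat_eq D A m N, Pool.Agent.W375.MT.chi_biUnion M _ _
    (fun B _ => constr_JS D hL B (constr_VV D hL A B) m N)]
  intro B hB B' hB' hne
  rw [Set.disjoint_left]
  rintro z ⟨h1, -⟩ ⟨h2, -⟩
  exact hne (VV_disj D (Finset.mem_powerset.1 hB) (Finset.mem_powerset.1 hB') h1 h2)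

end Pool.Agent.D0H67.SUB.Strat
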